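import Pool.Agent.X326.RL.Field

/-!
# Resolution of singularities of the varieties given by roots of linear forms
-/

set_option autoImplicit false

universe u

open Submodule Pool.Agent.TH214.SD Pool.Agent.TH188.VT Pool.Agent.W558 AlgebraicGeometry
  CategoryTheory

namespace Pool.Agent.X326.RL

section

variable {k K : Type u} [Field k] [Field K] [Algebra k K] {N n : ℕ}

lemma isProduct_mul {y : Fin n → K} (hy : ∀ j, y j ≠ 0) {z z' : K}
    (h : IsProduct (EE k K) y z) (h' : IsProduct (EE k K) y z') :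
    IsProduct (EE k K) y (z * z') := by
  obtain ⟨w, e, hw, rfl⟩ := h
  obtain ⟨w', e', hw', rfl⟩ := h'
  refine ⟨fun i => i.elim0, e + e', fun i => i.elim0, ?_⟩
  simp only [Finset.univ_eq_empty, Finset.prod_empty, one_mul, Pi.add_apply]
  rw [← Finset.prod_mul_distrib]
  exact Finset.prod_congr rfl fun j _ => (zpow_add₀ (hy j) _ _).symm

lemma isProduct_one {y : Fin n → K} : IsProduct (EE k K) y 1 :=
  ⟨fun i => i.elim0, 0, fun i => i.elim0, by simp⟩

lemma isProduct_zpow {y : Fin n → K} (j : Fin n) (e : ℤ) :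
    IsProduct (EE k K) y (y j ^ e) := by
  classical
  refine ⟨fun i => i.elim0, fun j' => if j' = j then e else 0, fun i => i.elim0, ?_⟩
  simp only [Finset.univ_eq_empty, Finset.prod_empty, one_mul]
  rw [Finset.prod_eq_single j]
  · rw [if_pos rfl]
  · intro j' _ h
    rw [if_neg h, zpow_zero]
  · intro h
    exact absurd (Finset.mem_univ _) h

lemma isProduct_prod {y : Fin n → K} (hy : ∀ j, y j ≠ 0) (f : Fin N → Fin n) (e : Fin N → ℤ) :
    IsProduct (EE k K) y (∏ i, y (f i) ^ e i) :=
  Finset.prod_induction _ _ (fun _ _ h h' => isProduct_mul hy h h') isProduct_one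
    fun i _ => isProduct_zpow (f i) (e i)

/-- Resolution of singularities for the varieties given by roots of linear forms. -/
theorem main (p : ℕ) [Fact p.Prime] (k : Type u) [Field k] [PerfectField k] [CharP k p]
    (K : Type u) [Field K] [Algebra k K] {N : ℕ} (x : Fin N → K) (hx : ∀ i, x i ≠ 0)
    (m : Fin N → ℕ) (hm : ∀ i, m i ≠ 0) (hK : IntermediateField.adjoin k (Set.range x) = ⊤)
    (hd : (Module.finrank k (span k (insert (1 : K) (Set.range fun i => x i ^ m i))) : Cardinal) ≤
      Algebra.trdeg k K + 1)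
    (A : Type u) [CommRing A] [IsDomain A] [Algebra k A] [Algebra.FiniteType k A] [Algebra A K]
    [IsScalarTower k A K] [IsFractionRing A K] (S : Finset A)
    (hS : ∀ a ∈ S, ∃ e : Fin N → ℤ, algebraMap A K a = ∏ i, x i ^ e i)
    (hA : ∀ a : A, IsIntegral (Algebra.adjoin k (S : Set A)) a) :
    IsResolvableVariety (X := Spec (CommRingCat.of A))
      (Spec.map (CommRingCat.ofHom (algebraMap k A))) := by
  classical
  have h1 : ∀ i, ∃ e n' : ℕ, ¬ p ∣ n' ∧ m i = p ^ e * n' := fun i =>
    Nat.exists_eq_pow_mul_and_not_dvd (hm i) p (Fact.out : p.Prime).ne_one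
  choose v a ha hva using h1
  obtain ⟨r, hr⟩ : ∃ r, ∀ i, v i ≤ r :=
    ⟨Finset.univ.sup v, fun i => Finset.le_sup (Finset.mem_univ i)⟩
  have h2 : SS p k x a v 0 = span k (insert (1 : K) (Set.range fun i => x i ^ m i)) := by
    rw [SS]
    congr 2
    ext z
    simp only [Nat.zero_le, Set.mem_image, Set.mem_range, Set.mem_ofPred_eq, true_and]
    refine exists_congr fun i => ?_
    rw [hva i, mul_comm]
  rw [← h2] at hd
  have hB : ∀ l, ∃ B ⊆ JJ p k x a v l,
      IsB (SS p k x a v l) (SS p k x a v (l + 1)) (el p l) B := fun l =>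
    exists_isB _ _ _ (SS_anti p x a v (Nat.le_succ l)) _ (JJ_span hx ha l)
  choose B hBJ hB using hB
  have hW := isWildCover r hx ha hr hBJ hB hK hd
  refine resolvable (fun S _ v hv => wild_models hW S v hv) A S ?_ hA
  intro z hz
  obtain ⟨e, he⟩ := hS z hz
  rw [he]
  have h3 : ∀ i, x i = yy p k x a v r (eI p k x a v r ⟨⟨v i, by have := hr i; omega⟩,
      ⟨(x i, a i), JJ_x p k x a v i⟩⟩) := by
    intro i
    change x i = yI r ((eI p k x a v r).symm (eI p k x a v r _))
    rw [Equiv.symm_apply_apply]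
    rfl
  have h4 : ∏ i, x i ^ e i = ∏ i, yy p k x a v r (eI p k x a v r ⟨⟨v i, by have := hr i; omega⟩,
      ⟨(x i, a i), JJ_x p k x a v i⟩⟩) ^ e i :=
    Finset.prod_congr rfl fun i _ => by rw [← h3 i]
  rw [h4]
  exact isProduct_prod hW.base.ne_zero _ _

end

end Pool.Agent.X326.RL
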