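import Pool.Agent.X326.RL.Irr
import Pool.Agent.X326.RL.Main

/-!
# Resolution of singularities of the irreducible components of diagonal systems
-/

set_option autoImplicit false

universe u

open Submodule MvPolynomial Pool.Agent.W558 AlgebraicGeometry CategoryTheory

namespace Pool.Agent.X326.RL

section

variable {k : Type u} [Field k] {N q : ℕ} (n : Fin N → ℕ) (c : Fin q → Fin N → k) (b : Fin q → k)
  (P : Ideal (MvPolynomial (Fin N) k)) [P.IsPrime]

/-- the coordinate functions on the irreducible component -/
noncomputable def xK (i : Fin N) : FractionRing (MvPolynomial (Fin N) k ⧸ P) :=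
  algebraMap (MvPolynomial (Fin N) k ⧸ P) _ (Ideal.Quotient.mk P (X i))

open Classical in
/-- the nonzero coordinate functions -/
noncomputable def xK' (i : Fin N) : FractionRing (MvPolynomial (Fin N) k ⧸ P) :=
  if xK P i = 0 then 1 else xK P i

lemma xK'_ne (i : Fin N) : xK' P i ≠ 0 := by
  classical
  rw [xK']
  split_ifs with h
  · exact one_ne_zero
  · exact h

lemma aeval_xK (f : MvPolynomial (Fin N) k) :
    aeval (fun i => xK P i ^ n i) f =
      algebraMap (MvPolynomial (Fin N) k ⧸ P) (FractionRing (MvPolynomial (Fin N) k ⧸ P))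
        (Ideal.Quotient.mk P (phi n f)) := by
  have h1 : aeval (fun i => xK P i ^ n i) =
      ((IsScalarTower.toAlgHom k (MvPolynomial (Fin N) k ⧸ P)
        (FractionRing (MvPolynomial (Fin N) k ⧸ P))).comp
          (Ideal.Quotient.mkₐ k P)).comp (phi n) := by
    apply algHom_ext
    intro i
    simp [phi, xK]
  rw [h1]
  rfl

lemma mk_eq (f : MvPolynomial (Fin N) k) :
    algebraMap (MvPolynomial (Fin N) k ⧸ P) (FractionRing (MvPolynomial (Fin N) k ⧸ P))
      (Ideal.Quotient.mk P f) = aeval (xK P) f := by
  have h1 : aeval (xK P) =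
      ((IsScalarTower.toAlgHom k (MvPolynomial (Fin N) k ⧸ P)
        (FractionRing (MvPolynomial (Fin N) k ⧸ P))).comp
          (Ideal.Quotient.mkₐ k P)) := by
    apply algHom_ext
    intro i
    simp [xK]
  rw [h1]
  rfl

lemma adjoin_xK' : IntermediateField.adjoin k (Set.range (xK' P)) = ⊤ := by
  classical
  rw [eq_top_iff]
  rintro z -
  have h1 : ∀ f : MvPolynomial (Fin N) k,
      algebraMap (MvPolynomial (Fin N) k ⧸ P) (FractionRing (MvPolynomial (Fin N) k ⧸ P))
      (Ideal.Quotient.mk P f) ∈ IntermediateField.adjoin k (Set.range (xK' P)) := by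
    intro f
    rw [mk_eq]
    induction f using MvPolynomial.induction_on with
    | C a =>
      rw [← algebraMap_eq, AlgHom.commutes]
      exact IntermediateField.algebraMap_mem _ a
    | add f g hf hg =>
      rw [map_add]
      exact add_mem hf hg
    | mul_X f i hf =>
      rw [map_mul, aeval_X]
      refine mul_mem hf ?_
      by_cases h : xK P i = 0
      · rw [h]
        exact zero_mem _
      · apply IntermediateField.subset_adjoin
        refine ⟨i, ?_⟩
        rw [xK', if_neg h]
  obtain ⟨a, d, -, rfl⟩ := IsFractionRing.div_surjective (A := MvPolynomial (Fin N) k ⧸ P) z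
  obtain ⟨a, rfl⟩ := Ideal.Quotient.mk_surjective a
  obtain ⟨d, rfl⟩ := Ideal.Quotient.mk_surjective d
  exact div_mem (h1 a) (h1 d)

variable {P}

lemma finrank_le (hn : ∀ i, n i ≠ 0) (hP : P ∈ (Ideal.span (Set.range (fl n c b))).minimalPrimes) :
    (Module.finrank k (span k (insert (1 : FractionRing (MvPolynomial (Fin N) k ⧸ P))
      (Set.range fun i => xK' P i ^ n i))) : Cardinal) ≤
      Algebra.trdeg k (FractionRing (MvPolynomial (Fin N) k ⧸ P)) + 1 := by
  classical
  have hJ : Ideal.span (Set.range (fl n c b)) = (IL c b).map (phi n).toRingHom := by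
    rw [IL, Ideal.map_span, ← Set.range_comp]
    congr 2
    funext j
    exact (phi_gl n c b j).symm
  have hI : IL c b ≠ ⊤ := by
    intro h
    rw [h, Ideal.map_top] at hJ
    have h1 := hP.1.2
    rw [hJ, top_le_iff] at h1
    exact hP.1.1.ne_top h1
  obtain ⟨B, ψ, hB, hker, hψ⟩ := exists_par c b hI
  have hIp : (IL c b).IsPrime := by
    rw [← hker]
    exact RingHom.ker_isPrime _
  have hcomap : P.comap (phi n).toRingHom = IL c b := by
    apply comap_eq_of_minimal _ (phi_injective n hn) (phi_integral n hn)
    rw [← hJ]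
    exact hP
  -- algebraic independence
  have hind : AlgebraicIndependent k (fun i : B => xK P i ^ n i) := by
    rw [algebraicIndependent_iff]
    intro F hF
    have h1 : aeval (fun i => xK P i ^ n i) (rename (Subtype.val : B → Fin N) F) = 0 := by
      rw [aeval_rename]
      exact hF
    rw [aeval_xK] at h1
    have h2 : Ideal.Quotient.mk P (phi n (rename (Subtype.val : B → Fin N) F)) = 0 :=
      (IsFractionRing.injective (MvPolynomial (Fin N) k ⧸ P)
        (FractionRing (MvPolynomial (Fin N) k ⧸ P))) (by rw [h1, map_zero])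
    rw [Ideal.Quotient.eq_zero_iff_mem] at h2
    have h3 : rename (Subtype.val : B → Fin N) F ∈ P.comap (phi n).toRingHom := h2
    rw [hcomap, ← hker, RingHom.mem_ker] at h3
    have h4 : ψ (rename (Subtype.val : B → Fin N) F) = rename (Subtype.val : B → Fin N) F := by
      have h5 : ψ.comp (rename (Subtype.val : B → Fin N)) =
          (rename (R := k) (Subtype.val : B → Fin N)) := by
        apply algHom_ext
        intro i
        rw [AlgHom.comp_apply, rename_X]
        exact hψ i.1 i.2
      exact DFunLike.congr_fun h5 F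
    have h6 : rename (Subtype.val : B → Fin N) F = 0 := by
      rw [← h4]
      exact h3
    exact rename_injective _ Subtype.val_injective (by rw [h6, map_zero])
  have htr : ((B.card : ℕ) : Cardinal) ≤
      Algebra.trdeg k (FractionRing (MvPolynomial (Fin N) k ⧸ P)) := by
    have h1 := hind.lift_cardinalMk_le_trdeg
    rw [Cardinal.mk_fintype, Fintype.card_coe, Cardinal.lift_natCast] at h1
    rw [← Cardinal.lift_natCast.{u}, Cardinal.lift_id] at h1 ⊢
    simpa using h1
  -- the dimension
  have h0 : ∀ f ∈ IL c b, aeval (fun i => xK P i ^ n i) f = 0 := by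
    intro f hf
    rw [aeval_xK]
    have h1 : phi n f ∈ P := by
      have h2 : phi n f ∈ (IL c b).map (phi n).toRingHom := Ideal.mem_map_of_mem _ hf
      rw [← hJ] at h2
      exact hP.1.2 h2
    rw [Ideal.Quotient.eq_zero_iff_mem.2 h1, map_zero]
  let θ : (MvPolynomial (Fin N) k ⧸ IL c b) →ₐ[k] FractionRing (MvPolynomial (Fin N) k ⧸ P) :=
    Ideal.Quotient.liftₐ (IL c b) (aeval fun i => xK P i ^ n i) h0
  have hθ : ∀ i, θ (ee c b i) = xK P i ^ n i := by
    intro i
    change aeval (fun i => xK P i ^ n i) (X i) = _
    rw [aeval_X]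
  have hle : span k (insert (1 : FractionRing (MvPolynomial (Fin N) k ⧸ P))
      (Set.range fun i => xK' P i ^ n i)) ≤ (SL c b).map θ.toLinearMap := by
    rw [SL, Submodule.map_span, span_le]
    have h1 : (1 : FractionRing (MvPolynomial (Fin N) k ⧸ P)) ∈
        span k (θ.toLinearMap '' insert 1 (Set.range (ee c b))) :=
      subset_span ⟨1, Set.mem_insert _ _, map_one θ⟩
    rintro z (rfl | ⟨i, rfl⟩)
    · exact h1
    · by_cases h : xK P i = 0
      · have h2 : xK' P i = 1 := by rw [xK', if_pos h]
        change xK' P i ^ n i ∈ _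
        rw [h2, one_pow]
        exact h1
      · have h2 : xK' P i = xK P i := by rw [xK', if_neg h]
        change xK' P i ^ n i ∈ _
        rw [h2]
        exact subset_span ⟨ee c b i, Set.mem_insert_of_mem _ ⟨i, rfl⟩, hθ i⟩
  have hfin : Module.finrank k (span k (insert (1 : FractionRing (MvPolynomial (Fin N) k ⧸ P))
      (Set.range fun i => xK' P i ^ n i))) ≤ B.card + 1 := by
    rw [hB]
    exact (Submodule.finrank_mono hle).trans (Submodule.finrank_map_le _ _)
  calc (Module.finrank k (span k (insert (1 : FractionRing (MvPolynomial (Fin N) k ⧸ P))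
      (Set.range fun i => xK' P i ^ n i))) : Cardinal) ≤ ((B.card + 1 : ℕ) : Cardinal) := by
        exact_mod_cast hfin
    _ ≤ _ := by
        rw [Nat.cast_add, Nat.cast_one]
        exact Cardinal.add_one_le_add_one_iff.2 htr

end

section

variable (p : ℕ) [Fact p.Prime] (k : Type u) [Field k] [PerfectField k] [CharP k p] {N q : ℕ}
  (n : Fin N → ℕ) (hn : ∀ i, n i ≠ 0) (c : Fin q → Fin N → k) (b : Fin q → k)
  (P : Ideal (MvPolynomial (Fin N) k)) [P.IsPrime]
  (hP : P ∈ (Ideal.span (Set.range (fl n c b))).minimalPrimes)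

include p hn hP in
/-- varieties with the function field of an irreducible component -/
theorem comp (A : Type u) [CommRing A] [IsDomain A] [Algebra k A] [Algebra.FiniteType k A]
    [Algebra A (FractionRing (MvPolynomial (Fin N) k ⧸ P))]
    [IsScalarTower k A (FractionRing (MvPolynomial (Fin N) k ⧸ P))]
    [IsFractionRing A (FractionRing (MvPolynomial (Fin N) k ⧸ P))] (S : Finset A)
    (hS : ∀ a ∈ S, ∃ e : Fin N → ℤ,
      algebraMap A (FractionRing (MvPolynomial (Fin N) k ⧸ P)) a = ∏ i, xK P i ^ e i)
    (hA : ∀ a : A, IsIntegral (Algebra.adjoin k (S : Set A)) a) :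
    IsResolvableVariety (X := Spec (CommRingCat.of A))
      (Spec.map (CommRingCat.ofHom (algebraMap k A))) := by
  classical
  have hadj : Algebra.adjoin k ((S.filter (· ≠ 0) : Finset A) : Set A) =
      Algebra.adjoin k (S : Set A) := by
    apply le_antisymm
    · apply Algebra.adjoin_mono
      intro a ha
      exact (Finset.mem_filter.1 ha).1
    · apply Algebra.adjoin_le
      intro a ha
      by_cases h : a = 0
      · rw [h]
        exact zero_mem _
      · exact Algebra.subset_adjoin (Finset.mem_filter.2 ⟨ha, h⟩)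
  refine main p k _ (xK' P) (xK'_ne P) n hn (adjoin_xK' P) (finrank_le n c b hn hP) A
    (S.filter (· ≠ 0)) ?_ ?_
  · intro a ha
    obtain ⟨ha, ha0⟩ := Finset.mem_filter.1 ha
    obtain ⟨e, he⟩ := hS a ha
    refine ⟨e, ?_⟩
    rw [he]
    refine Finset.prod_congr rfl fun i _ => ?_
    by_cases h : xK P i = 0
    · have he0 : e i = 0 := by
        by_contra hcon
        apply ha0
        apply IsFractionRing.injective A (FractionRing (MvPolynomial (Fin N) k ⧸ P))
        rw [map_zero, he]
        exact Finset.prod_eq_zero (Finset.mem_univ i) (by rw [h, zero_zpow _ hcon])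
      rw [he0, zpow_zero, zpow_zero]
    · rw [xK', if_neg h]
  · intro a
    rw [hadj]
    exact hA a

include p hn hP in
/-- the irreducible component -/
theorem comp_self : IsResolvableVariety
    (X := Spec (CommRingCat.of (MvPolynomial (Fin N) k ⧸ P)))
    (Spec.map (CommRingCat.ofHom (algebraMap k (MvPolynomial (Fin N) k ⧸ P)))) := by
  classical
  have hft : Algebra.FiniteType k (MvPolynomial (Fin N) k ⧸ P) :=
    Algebra.FiniteType.of_surjective (Ideal.Quotient.mkₐ k P) Ideal.Quotient.mk_surjective
  refine comp p k n hn c b P hP _ (Finset.univ.image fun i => Ideal.Quotient.mk P (X i)) ?_ ?_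
  · intro a ha
    obtain ⟨i, -, rfl⟩ := Finset.mem_image.1 ha
    refine ⟨Pi.single i 1, ?_⟩
    rw [Finset.prod_eq_single i]
    · rw [Pi.single_eq_same, zpow_one]
      rfl
    · intro j _ hj
      rw [Pi.single_eq_of_ne hj, zpow_zero]
    · intro h
      exact absurd (Finset.mem_univ _) h
  · intro a
    obtain ⟨f, rfl⟩ := Ideal.Quotient.mk_surjective a
    have h1 : Ideal.Quotient.mk P f ∈ Algebra.adjoin k
        ((Finset.univ.image fun i => Ideal.Quotient.mk P (X i) : Finset _) :
          Set (MvPolynomial (Fin N) k ⧸ P)) := by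
      induction f using MvPolynomial.induction_on with
      | C a => exact Subalgebra.algebraMap_mem _ a
      | add f g hf hg =>
        rw [map_add]
        exact add_mem hf hg
      | mul_X f i hf =>
        rw [map_mul]
        exact mul_mem hf (Algebra.subset_adjoin
          (Finset.mem_coe.2 (Finset.mem_image.2 ⟨i, Finset.mem_univ _, rfl⟩)))
    exact isIntegral_algebraMap (R := Algebra.adjoin k
        ((Finset.univ.image fun i => Ideal.Quotient.mk P (X i) : Finset _) :
          Set (MvPolynomial (Fin N) k ⧸ P))) (x := ⟨_, h1⟩)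

end

end Pool.Agent.X326.RL
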