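import Pool.Agent.TH214.SD.Defs

/-!
# Laurent polynomials given by families of terms
-/

set_option autoImplicit false

universe u

open Pool.Agent.TH214.SD

namespace Pool.Agent.X326.RL

section

variable {k : Type u} [Field k] {h n : ℕ} {T : Type u} [Fintype T]

/-- The Laurent polynomial with the terms `co t * X ^ ex t`. -/
noncomputable def lau (ex : T ↪ (Fin h ⊕ Fin n → ℤ)) (co : T → k) : (Fin h ⊕ Fin n → ℤ) →₀ k :=
  Finsupp.embDomain ex (Finsupp.equivFunOnFinite.symm co)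

lemma lau_apply (ex : T ↪ (Fin h ⊕ Fin n → ℤ)) (co : T → k) (t : T) :
    lau ex co (ex t) = co t := by
  rw [lau, Finsupp.embDomain_apply_self]
  rfl

lemma support_lau (ex : T ↪ (Fin h ⊕ Fin n → ℤ)) (co : T → k) (hco : ∀ t, co t ≠ 0) :
    (lau ex co).support = Finset.univ.map ex := by
  rw [lau, Finsupp.support_embDomain]
  congr 1
  ext t
  simpa using hco t

lemma value_lau {K : Type u} [Field K] [Algebra k K] (ex : T ↪ (Fin h ⊕ Fin n → ℤ)) (co : T → k)
    (hco : ∀ t, co t ≠ 0) (u : Fin h → K) (y : Fin n → K) :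
    value (lau ex co) u y = ∑ t, co t • ∏ j, Sum.elim u y j ^ ex t j := by
  rw [value, support_lau ex co hco, Finset.sum_map]
  exact Finset.sum_congr rfl fun t _ => by rw [lau_apply]

/-- The terms of minimal weight. -/
def mins (ex : T ↪ (Fin h ⊕ Fin n → ℤ)) (l : Fin h ⊕ Fin n → ℤ) : Finset T :=
  Finset.univ.filter fun t => ∀ t', ∑ j, l j * ex t j ≤ ∑ j, l j * ex t' j

lemma initialExponents_lau (ex : T ↪ (Fin h ⊕ Fin n → ℤ)) (co : T → k) (hco : ∀ t, co t ≠ 0)
    (l : Fin h ⊕ Fin n → ℤ) : initialExponents (lau ex co) l = (mins ex l).map ex := by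
  rw [initialExponents, support_lau ex co hco]
  ext e
  simp only [Finset.mem_filter, Finset.mem_map, Finset.mem_univ, true_and, mins]
  constructor
  · rintro ⟨⟨t, rfl⟩, h1⟩
    exact ⟨t, fun t' => h1 _ ⟨t', rfl⟩, rfl⟩
  · rintro ⟨t, h1, rfl⟩
    refine ⟨⟨t, rfl⟩, ?_⟩
    rintro _ ⟨t', rfl⟩
    exact h1 t'

lemma initialValue_lau (ex : T ↪ (Fin h ⊕ Fin n → ℤ)) (co : T → k) (hco : ∀ t, co t ≠ 0)
    (l : Fin h ⊕ Fin n → ℤ) (z : Fin h ⊕ Fin n → AlgebraicClosure k) :
    initialValue (lau ex co) l z =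
      ∑ t ∈ mins ex l, algebraMap k (AlgebraicClosure k) (co t) * ∏ j, z j ^ ex t j := by
  rw [initialValue, initialExponents_lau ex co hco, Finset.sum_map]
  exact Finset.sum_congr rfl fun t _ => by rw [lau_apply]

lemma initialGradient_lau (ex : T ↪ (Fin h ⊕ Fin n → ℤ)) (co : T → k) (hco : ∀ t, co t ≠ 0)
    (l : Fin h ⊕ Fin n → ℤ) (z : Fin h ⊕ Fin n → AlgebraicClosure k) (i : Fin n) :
    initialGradient (lau ex co) l z i =
      ∑ t ∈ mins ex l, algebraMap k (AlgebraicClosure k) (co t) *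
        (ex t (Sum.inr i) : AlgebraicClosure k) * ∏ j, z j ^ ex t j := by
  rw [initialGradient, initialExponents_lau ex co hco, Finset.sum_map]
  exact Finset.sum_congr rfl fun t _ => by rw [lau_apply]

lemma mins_nonempty [Nonempty T] (ex : T ↪ (Fin h ⊕ Fin n → ℤ)) (l : Fin h ⊕ Fin n → ℤ) :
    (mins ex l).Nonempty := by
  obtain ⟨t, -, ht⟩ := Finset.exists_min_image Finset.univ (fun t => ∑ j, l j * ex t j)
    Finset.univ_nonempty
  exact ⟨t, Finset.mem_filter.2 ⟨Finset.mem_univ _, fun t' => ht t' (Finset.mem_univ _)⟩⟩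

end

end Pool.Agent.X326.RL
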