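import Pool.Agent.X326.RL.Schon
import Pool.Agent.TH214.SD.Main

/-!
# The field generated by roots of linear forms
-/

set_option autoImplicit false
set_option linter.unusedSectionVars false

universe u

open Submodule Pool.Agent.TH214.SD Pool.Agent.TH188.VT

namespace Pool.Agent.X326.RL

section

variable (p : ℕ) (k : Type u) {K : Type u} [Field k] [Field K] [Algebra k K] {N : ℕ}
  (x : Fin N → K) (a v : Fin N → ℕ) (r : ℕ) (B : ℕ → Finset (K × ℕ))

/-- the independent torus coordinates -/
abbrev KK {K : Type u} (r : ℕ) (B : ℕ → Finset (K × ℕ)) : Type u :=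
  (l : Fin (r + 1)) × {q : K × ℕ // q ∈ B l}

/-- their values -/
def yK (o : KK r B) : K := o.2.1.1

lemma card_KK : Fintype.card (KK r B) = ∑ l : Fin (r + 1), (B l).card := by
  rw [Fintype.card_sigma]
  exact Finset.sum_congr rfl fun l _ => Fintype.card_coe _

variable {p k x a v B}

lemma SS_le (hr : ∀ i, v i ≤ r)
    (hB : ∀ l, IsB (SS p k x a v l) (SS p k x a v (l + 1)) (el p l) (B l)) (j : ℕ) (hj : j ≤ r + 1) :
    SS p k x a v (r + 1 - j) ≤ Subalgebra.toSubmodule (Algebra.adjoin k (Set.range (yK r B))) := by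
  induction j with
  | zero =>
    rw [Nat.sub_zero, SS_top hr, span_le]
    rintro _ rfl
    exact (Algebra.adjoin k (Set.range (yK r B))).one_mem
  | succ j ih =>
    have h1 : r + 1 - (j + 1) + 1 = r + 1 - j := by omega
    have h2 := (hB (r + 1 - (j + 1))).1
    rw [← h2, h1]
    refine sup_le (span_le.2 ?_) (ih (by omega))
    rintro _ ⟨q, hq, rfl⟩
    have h3 : r + 1 - (j + 1) < r + 1 := by omega
    have h4 : q.1 ∈ Algebra.adjoin k (Set.range (yK r B)) :=
      Algebra.subset_adjoin ⟨⟨⟨r + 1 - (j + 1), h3⟩, ⟨q, hq⟩⟩, rfl⟩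
    exact pow_mem h4 _

lemma isAlgebraic_K (hn : ∀ i, a i * p ^ v i ≠ 0) (hr : ∀ i, v i ≤ r)
    (hB : ∀ l, IsB (SS p k x a v l) (SS p k x a v (l + 1)) (el p l) (B l))
    (hK : IntermediateField.adjoin k (Set.range x) = ⊤) :
    Algebra.IsAlgebraic (Algebra.adjoin k (Set.range (yK r B))) K := by
  have h0 := SS_le r hr hB (r + 1) le_rfl
  rw [Nat.sub_self] at h0
  refine ⟨fun z => ?_⟩
  have hz : z ∈ IntermediateField.adjoin k (Set.range x) := by
    rw [hK]
    trivial
  induction hz using IntermediateField.adjoin_induction with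
  | mem z hz =>
    obtain ⟨i, rfl⟩ := hz
    have h1 : x i ^ (a i * p ^ v i) ∈ Algebra.adjoin k (Set.range (yK r B)) :=
      h0 (mem_SS p x a v (Nat.zero_le _))
    have h2 : IsAlgebraic (Algebra.adjoin k (Set.range (yK r B))) (x i ^ (a i * p ^ v i)) :=
      isAlgebraic_algebraMap (⟨_, h1⟩ : Algebra.adjoin k (Set.range (yK r B)))
    exact h2.of_pow (Nat.pos_of_ne_zero (hn i))
  | algebraMap c =>
    exact isAlgebraic_algebraMap (algebraMap k (Algebra.adjoin k (Set.range (yK r B))) c)
  | add z z' _ _ h h' => exact h.add h'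
  | inv z _ h => exact h.inv
  | mul z z' _ _ h h' => exact h.mul h'

lemma independent (hn : ∀ i, a i * p ^ v i ≠ 0) (hr : ∀ i, v i ≤ r)
    (hB : ∀ l, IsB (SS p k x a v l) (SS p k x a v (l + 1)) (el p l) (B l))
    (hK : IntermediateField.adjoin k (Set.range x) = ⊤)
    (hd : (Module.finrank k (SS p k x a v 0) : Cardinal) ≤ Algebra.trdeg k K + 1) :
    AlgebraicIndependent k (yK r B) := by
  have h1 := isAlgebraic_K r hn hr hB hK
  have h2 : Cardinal.mk (KK r B) ≤ Algebra.trdeg k K := by
    rw [← sum_card r hr B hB, Nat.cast_add, Nat.cast_one, ← card_KK, ← Cardinal.mk_fintype] at hd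
    exact Cardinal.add_one_le_add_one_iff.1 hd
  exact (Algebra.IsAlgebraic.isTranscendenceBasis_of_le_trdeg_of_finite k (yK r B) h2).1

/-- the inclusion of the independent coordinates -/
def incl (hB : ∀ l, B l ⊆ JJ p k x a v l) (o : KK r B) : II p k x a v r :=
  ⟨o.1, ⟨o.2.1, hB _ o.2.2⟩⟩

/-- the indices of the independent torus variables -/
noncomputable def rho (hB : ∀ l, B l ⊆ JJ p k x a v l) (j : Fin (Fintype.card (KK r B))) :
    Fin (nI p k x a v r) :=
  eI p k x a v r (incl r hB ((Fintype.equivFin _).symm j))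

variable (p k x a v)

/-- the values of the torus coordinates -/
noncomputable def yy (j : Fin (nI p k x a v r)) : K := yI r ((eI p k x a v r).symm j)

/-- no surfaces -/
def EE (k K : Type u) [Field k] [Field K] [Algebra k K] (i : Fin 0) : IntermediateField k K :=
  i.elim0

variable {p k x a v}

theorem isWildCover [Fact p.Prime] [CharP k p] [PerfectField k] (hx : ∀ i, x i ≠ 0)
    (ha : ∀ i, ¬ p ∣ a i) (hr : ∀ i, v i ≤ r) (hBJ : ∀ l, B l ⊆ JJ p k x a v l)
    (hB : ∀ l, IsB (SS p k x a v l) (SS p k x a v (l + 1)) (el p l) (B l))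
    (hK : IntermediateField.adjoin k (Set.range x) = ⊤)
    (hd : (Module.finrank k (SS p k x a v 0) : Cardinal) ≤ Algebra.trdeg k K + 1) :
    IsWildCover (EE k K) p (nI p k x a v r - Fintype.card (KK r B)) (Fin.elim0 : Fin 0 → K)
      (yy p k x a v r) (GF (k := k) (v := v) r hx ha) (rho r hBJ) (fun i => i.elim0)
      (Fin.elim0 : Fin 0 → _) ∅ (Fin.elim0 : Fin 0 → K) := by
  have hn : ∀ i, a i * p ^ v i ≠ 0 := fun i => mul_ne_zero (fun h => ha i (h ▸ dvd_zero p))
    (pow_ne_zero _ (Fact.out : p.Prime).ne_zero)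
  have hle : Fintype.card (KK r B) ≤ nI p k x a v r := by
    rw [card_KK]
    have h1 : nI p k x a v r = ∑ l : Fin (r + 1), (JJ p k x a v l).card := card_II p k x a v r
    rw [h1]
    exact Finset.sum_le_sum fun l _ => Finset.card_le_card (hBJ l)
  refine ⟨⟨?_, ?_, ?_, ?_, ?_, ?_, ?_⟩, ?_, ?_, ?_, ?_⟩
  · exact Or.inr ⟨Fin.elim0, algebraicIndependent_empty_type, fun i => i.elim0⟩
  · intro c
    exact c.elim0
  · intro j
    exact (JJ_good hx ha _ ((eI p k x a v r).symm j).2.2).1
  · intro i
    exact value_GG r hx ha hr _ _ _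
  · apply schon r hx ha hr
    have h1 := sum_card r hr B hB
    rw [← card_KK] at h1
    omega
  · omega
  · have h1 := independent r hn hr hB hK hd
    have h3 : AlgebraicIndependent k (yy p k x a v r ∘ rho r hBJ) := by
      have h4 : yy p k x a v r ∘ rho r hBJ = yK r B ∘ (Fintype.equivFin (KK r B)).symm := by
        funext j
        simp only [Function.comp_apply, yy, rho, Equiv.symm_apply_apply]
        rfl
      rw [h4]
      exact h1.comp _ (Equiv.injective _)
    have h7 : AlgebraicIndependent k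
        (Sum.elim (yy p k x a v r ∘ rho r hBJ) (Fin.elim0 : Fin 0 → K)) := by
      have h8 := h3.comp (Equiv.sumEmpty (Fin _) (Fin 0)) (Equiv.injective _)
      have h9 : (yy p k x a v r ∘ rho r hBJ) ∘ Equiv.sumEmpty (Fin _) (Fin 0) =
          Sum.elim (yy p k x a v r ∘ rho r hBJ) (Fin.elim0 : Fin 0 → K) := by
        funext q
        rcases q with q | q
        · rfl
        · exact q.elim0
      rwa [h9] at h8
    have h9 := (AlgebraicIndependent.sumElim_iff.1 h7).2
    have h10 := IntermediateField.algebraicIndependent_adjoin_iff.2 h9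
    have h11 : (⋃ i, (EE k K i : Set K)) = Set.range (Fin.elim0 : Fin 0 → K) := by
      rw [Set.iUnion_of_empty, Set.range_eq_empty]
    rw [h11]
    exact h10
  · intro l z hz _ t
    exact t.elim0
  · intro t
    exact t.elim0
  · intro t
    exact t.elim0
  · rw [eq_top_iff, ← hK]
    apply IntermediateField.adjoin_le_iff.2
    rintro z ⟨i, rfl⟩
    apply IntermediateField.subset_adjoin
    refine Or.inr (Or.inl ⟨eI p k x a v r ⟨⟨v i, by have := hr i; omega⟩,
      ⟨(x i, a i), JJ_x p k x a v i⟩⟩, ?_⟩)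
    change yI r ((eI p k x a v r).symm (eI p k x a v r _)) = x i
    rw [Equiv.symm_apply_apply]
    rfl

end

end Pool.Agent.X326.RL
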