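import Pool.Agent.X326.RL.Lin

/-!
# Irreducible components of subschemes given by diagonal equations
-/

set_option autoImplicit false

universe u

open Submodule MvPolynomial

namespace Pool.Agent.X326.RL

/-- Minimal primes over the extension of a prime ideal in an integral extension of a normal
domain. -/
lemma comap_eq_of_minimal {R S : Type*} [CommRing R] [CommRing S] [IsDomain R] [IsDomain S]
    [IsIntegrallyClosed R] (φ : R →+* S) (hinj : Function.Injective φ) (hint : φ.IsIntegral)
    (I : Ideal R) [I.IsPrime] (P : Ideal S) (hP : P ∈ (I.map φ).minimalPrimes) :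
    P.comap φ = I := by
  let := φ.toAlgebra
  have hfs : FaithfulSMul R S := (faithfulSMul_iff_algebraMap_injective R S).2 hinj
  have hai : Algebra.IsIntegral R S := ⟨hint⟩
  have hPp : P.IsPrime := hP.1.1
  have hle : I ≤ P.comap φ := Ideal.map_le_iff_le_comap.1 hP.1.2
  have hlo : P.LiesOver (P.comap φ) := ⟨rfl⟩
  obtain ⟨P', hP'P, hP', hP'I⟩ := Ideal.exists_ideal_le_liesOver_of_le (p := I) P hle
  have h1 : I.map φ ≤ P' := by
    rw [Ideal.map_le_iff_le_comap]
    exact hP'I.over.le
  have h2 : P' = P := le_antisymm hP'P (hP.2 ⟨hP', h1⟩ hP'P)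
  rw [← h2]
  exact hP'I.over.symm

section

variable {k : Type u} [Field k] {N q : ℕ} (n : Fin N → ℕ) (c : Fin q → Fin N → k) (b : Fin q → k)

/-- the power map -/
noncomputable def phi : MvPolynomial (Fin N) k →ₐ[k] MvPolynomial (Fin N) k :=
  aeval fun i => X i ^ n i

/-- the affine linear forms -/
noncomputable def gl (j : Fin q) : MvPolynomial (Fin N) k := ∑ i, C (c j i) * X i - C (b j)

/-- the diagonal polynomials -/
noncomputable def fl (j : Fin q) : MvPolynomial (Fin N) k := ∑ i, C (c j i) * X i ^ n i - C (b j)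

lemma phi_gl (j : Fin q) : phi n (gl c b j) = fl n c b j := by
  simp [phi, gl, fl, algebraMap_eq]

lemma phi_injective (hn : ∀ i, n i ≠ 0) : Function.Injective (phi (k := k) n) := by
  have h1 : AlgebraicIndependent k (X : Fin N → MvPolynomial (Fin N) k) :=
    algebraicIndependent_X _ _
  have h2 := h1.polynomial_aeval_of_transcendental (f := fun i => Polynomial.X ^ n i) fun i =>
    (Polynomial.transcendental_X k).pow (Nat.pos_of_ne_zero (hn i))
  have h3 : (fun i : Fin N => Polynomial.aeval (X i : MvPolynomial (Fin N) k)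
      (Polynomial.X ^ n i : Polynomial k)) = fun i => X i ^ n i := by
    funext i
    rw [map_pow, Polynomial.aeval_X]
  rw [h3] at h2
  exact h2

lemma phi_integral (hn : ∀ i, n i ≠ 0) : (phi (k := k) n).toRingHom.IsIntegral := by
  intro f
  induction f using MvPolynomial.induction_on with
  | C a =>
    have h1 : (C a : MvPolynomial (Fin N) k) = (phi (k := k) n).toRingHom (C a) := by
      simp [phi, algebraMap_eq]
    rw [h1]
    exact RingHom.isIntegralElem_map _
  | add f g hf hg => exact hf.add _ hg
  | mul_X f i hf =>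
    refine hf.mul _ ⟨Polynomial.X ^ n i - Polynomial.C (X i), ?_, ?_⟩
    · exact Polynomial.monic_X_pow_sub_C _ (hn i)
    · simp [phi]

end

section

variable {k : Type u} [Field k] {N q : ℕ} (c : Fin q → Fin N → k) (b : Fin q → k)

/-- the ideal of the linear space -/
noncomputable def IL : Ideal (MvPolynomial (Fin N) k) := Ideal.span (Set.range (gl c b))

/-- the class of an affine linear form -/
noncomputable def ee (i : Fin N) : MvPolynomial (Fin N) k ⧸ IL c b := Ideal.Quotient.mk _ (X i)

/-- the space of affine linear forms -/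
noncomputable def SL : Submodule k (MvPolynomial (Fin N) k ⧸ IL c b) :=
  span k (insert 1 (Set.range (ee c b)))

instance : FiniteDimensional k (SL c b) := by
  apply FiniteDimensional.span_of_finite
  exact Set.Finite.insert _ (Set.toFinite _)

/-- There is a parametrization of the linear space. -/
theorem exists_par (hI : IL c b ≠ ⊤) : ∃ (B : Finset (Fin N))
    (ψ : MvPolynomial (Fin N) k →ₐ[k] MvPolynomial (Fin N) k),
    B.card + 1 = Module.finrank k (SL c b) ∧ RingHom.ker ψ = IL c b ∧
    ∀ i ∈ B, ψ (X i) = X i := by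
  classical
  have hnt : Nontrivial (MvPolynomial (Fin N) k ⧸ IL c b) := Ideal.Quotient.nontrivial_iff.2 hI
  have h1 : span k (ee c b '' ((Finset.univ : Finset (Fin N)) : Set (Fin N))) ⊔
      span k {(1 : MvPolynomial (Fin N) k ⧸ IL c b)} = SL c b := by
    rw [Finset.coe_univ, Set.image_univ, ← span_union, SL, Set.union_comm]
    rfl
  obtain ⟨B, -, hB1, hB2⟩ := exists_isB (SL c b) (span k {1}) (ee c b)
    (span_mono (Set.singleton_subset_iff.2 (Set.mem_insert _ _))) Finset.univ h1
  rw [finrank_span_singleton one_ne_zero] at hB2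
  -- linear independence
  let w : Option B → MvPolynomial (Fin N) k ⧸ IL c b := fun o => o.elim 1 fun i => ee c b i
  have hw : LinearIndependent k w := by
    rw [linearIndependent_iff_card_eq_finrank_span]
    have h2 : span k (Set.range w) = SL c b := by
      rw [← hB1]
      apply le_antisymm
      · refine span_le.2 ?_
        rintro _ ⟨o, rfl⟩
        rcases o with _ | ⟨i, hi⟩
        · exact mem_sup_right (subset_span rfl)
        · exact mem_sup_left (subset_span ⟨i, hi, rfl⟩)
      · refine sup_le (span_le.2 ?_) (span_le.2 ?_)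
        · rintro _ ⟨i, hi, rfl⟩
          exact subset_span ⟨some ⟨i, hi⟩, rfl⟩
        · rintro _ rfl
          exact subset_span ⟨none, rfl⟩
    rw [Set.finrank, h2, ← hB2, Fintype.card_option, Fintype.card_coe]
  -- the coefficients
  have hlm : ∀ i, ∃ (l : Fin N → k) (m : k),
      ee c b i = ∑ i' ∈ B, l i' • ee c b i' + m • (1 : MvPolynomial (Fin N) k ⧸ IL c b) ∧
      (i ∈ B → l = Pi.single i 1 ∧ m = 0) := by
    intro i
    by_cases hi : i ∈ B
    · refine ⟨Pi.single i 1, 0, ?_, fun _ => ⟨rfl, rfl⟩⟩
      rw [zero_smul, add_zero, Finset.sum_eq_single i, Pi.single_eq_same, one_smul]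
      · intro i' _ h
        rw [Pi.single_eq_of_ne h, zero_smul]
      · intro h
        exact absurd hi h
    · have h3 : ee c b i ∈ span k (ee c b '' (B : Set (Fin N))) ⊔ span k {1} := by
        rw [hB1]
        exact subset_span (Set.mem_insert_of_mem _ ⟨i, rfl⟩)
      obtain ⟨y, hy, z, hz, hyz⟩ := mem_sup.1 h3
      obtain ⟨l, hl⟩ := (mem_span_image_finset_iff_exists_fun' k).1 hy
      obtain ⟨m, hm⟩ := mem_span_singleton.1 hz
      exact ⟨l, m, by rw [hl, hm, hyz], fun h => absurd h hi⟩
  choose l m hl hlB using hlm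
  let ψ : MvPolynomial (Fin N) k →ₐ[k] MvPolynomial (Fin N) k :=
    aeval fun i => ∑ i' ∈ B, C (l i i') * X i' + C (m i)
  have hψX : ∀ i, ψ (X i) = ∑ i' ∈ B, C (l i i') * X i' + C (m i) := fun i => aeval_X _ _
  have hmk : (Ideal.Quotient.mkₐ k (IL c b)).comp ψ = Ideal.Quotient.mkₐ k (IL c b) := by
    apply algHom_ext
    intro i
    rw [AlgHom.comp_apply, hψX, map_add, map_sum]
    change ∑ i' ∈ B, Ideal.Quotient.mk (IL c b) (C (l i i') * X i') +
      Ideal.Quotient.mk (IL c b) (C (m i)) = ee c b i
    rw [hl i]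
    congr 1
    · refine Finset.sum_congr rfl fun i' _ => ?_
      rw [← smul_eq_C_mul]
      rfl
    · rw [← mul_one (C (m i)), ← smul_eq_C_mul]
      rfl
  have hmk' : ∀ f, Ideal.Quotient.mk (IL c b) (ψ f) = Ideal.Quotient.mk (IL c b) f := fun f =>
    DFunLike.congr_fun hmk f
  refine ⟨B, ψ, hB2, le_antisymm ?_ ?_, ?_⟩
  · intro f hf
    rw [RingHom.mem_ker] at hf
    rw [← Ideal.Quotient.eq_zero_iff_mem, ← hmk' f]
    change Ideal.Quotient.mk (IL c b) (ψ f) = 0
    have h4 : ψ f = 0 := hf
    rw [h4, map_zero]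
  · rw [IL, Ideal.span_le]
    rintro _ ⟨j, rfl⟩
    change ψ (gl c b j) = 0
    -- the form is an affine linear form in the variables from B
    have h5 : ψ (gl c b j) = ∑ i' ∈ B, C (∑ i, c j i * l i i') * X i' +
        C (∑ i, c j i * m i - b j) := by
      rw [gl, map_sub, map_sum]
      have h6 : ∀ i, ψ (C (c j i) * X i) =
          ∑ i' ∈ B, C (c j i * l i i') * X i' + C (c j i * m i) := by
        intro i
        rw [map_mul, hψX, ← algebraMap_eq, AlgHom.commutes, algebraMap_eq, mul_add,
          Finset.mul_sum, C_mul]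
        congr 1
        exact Finset.sum_congr rfl fun i' _ => by rw [C_mul, mul_assoc]
      have h7 : ψ (C (b j)) = C (b j) := by
        rw [← algebraMap_eq, AlgHom.commutes]
      rw [Finset.sum_congr rfl fun i _ => h6 i, h7, Finset.sum_add_distrib, Finset.sum_comm]
      rw [C_sub, map_sum, add_sub_assoc]
      congr 1
      refine Finset.sum_congr rfl fun i' _ => ?_
      rw [map_sum, Finset.sum_mul]
    have h8 : Ideal.Quotient.mk (IL c b) (ψ (gl c b j)) = 0 := by
      rw [hmk' (gl c b j), Ideal.Quotient.eq_zero_iff_mem]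
      exact Ideal.subset_span ⟨j, rfl⟩
    have h9 := (Fintype.linearIndependent_iff.1 hw) (fun o => o.elim (∑ i, c j i * m i - b j)
      fun i' => ∑ i, c j i * l i i') (by
        rw [Fintype.sum_option]
        rw [h5, map_add, map_sum] at h8
        rw [← h8, add_comm]
        congr 1
        · rw [← Finset.sum_coe_sort B]
          refine Finset.sum_congr rfl fun i' _ => ?_
          rw [← smul_eq_C_mul]
          rfl
        · rw [← mul_one (C (∑ i, c j i * m i - b j)), ← smul_eq_C_mul]
          rfl)
    rw [h5]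
    have h10 := h9 none
    have h11 : ∀ i' ∈ B, ∑ i, c j i * l i i' = 0 := fun i' hi' => h9 (some ⟨i', hi'⟩)
    change ∑ i, c j i * m i - b j = 0 at h10
    rw [h10, C_0, add_zero]
    exact Finset.sum_eq_zero fun i' hi' => by rw [h11 i' hi', C_0, zero_mul]
  · intro i hi
    obtain ⟨h12, h13⟩ := hlB i hi
    rw [hψX, h12, h13, C_0, add_zero, Finset.sum_eq_single i, Pi.single_eq_same, C_1, one_mul]
    · intro i' _ h
      rw [Pi.single_eq_of_ne h, C_0, zero_mul]
    · intro h
      exact absurd hi h

end

end Pool.Agent.X326.RL
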