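import Pool.Agent.X326.RL.Lin

/-!
# The levels
-/

set_option autoImplicit false

universe u

open Submodule

namespace Pool.Agent.X326.RL

section

variable (p : ℕ) {k K : Type u} [Field k] [Field K] [Algebra k K] {N : ℕ}
  (x : Fin N → K) (a v : Fin N → ℕ)

/-- the space of the elements of level at least `l` -/
def SS (k : Type u) {K : Type u} [Field k] [Field K] [Algebra k K] {N : ℕ}
    (x : Fin N → K) (a v : Fin N → ℕ) (l : ℕ) : Submodule k K :=
  span k (insert (1 : K) ((fun i => x i ^ (a i * p ^ v i)) '' {i | l ≤ v i}))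

/-- the element of the space of level `l` given by a torus coordinate and its exponent -/
def el (l : ℕ) (q : K × ℕ) : K := q.1 ^ (q.2 * p ^ l)

open Classical in
/-- the root -/
noncomputable def root (n : ℕ) (m : K) : K := if h : ∃ z : K, z ^ p ^ n = m then h.choose else 0

lemma SS_anti {l l' : ℕ} (h : l ≤ l') : SS p k x a v l' ≤ SS p k x a v l := by
  refine span_mono (Set.insert_subset_insert ?_)
  exact Set.image_mono fun i hi => h.trans hi

instance (l : ℕ) : FiniteDimensional k (SS p k x a v l) := by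
  apply FiniteDimensional.span_of_finite
  exact Set.Finite.insert _ (Set.toFinite _)

lemma one_mem_SS (l : ℕ) : (1 : K) ∈ SS p k x a v l := subset_span (Set.mem_insert _ _)

lemma mem_SS {l : ℕ} {i : Fin N} (h : l ≤ v i) : x i ^ (a i * p ^ v i) ∈ SS p k x a v l :=
  subset_span (Set.mem_insert_of_mem _ ⟨i, h, rfl⟩)

lemma exists_rootk [Fact p.Prime] [CharP k p] [PerfectField k] (c : k) (e : ℕ) :
    ∃ b : k, b ^ p ^ e = c := by
  have hP : PerfectRing k p := PerfectField.toPerfectRing p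
  obtain ⟨b, hb⟩ := (iterateFrobeniusEquiv k p e).surjective c
  exact ⟨b, by rw [← hb]; rfl⟩

variable {p x a v}

lemma root_exists [Fact p.Prime] [CharP k p] [PerfectField k] {n : ℕ} {m : K}
    (h : m ∈ SS p k x a v n) : ∃ z : K, z ^ p ^ n = m := by
  have hchar : CharP K p := charP_of_injective_algebraMap (algebraMap k K).injective p
  induction h using Submodule.span_induction with
  | mem z hz =>
    rcases hz with rfl | ⟨i, hi, rfl⟩
    · exact ⟨1, one_pow _⟩
    · refine ⟨x i ^ (a i * p ^ (v i - n)), ?_⟩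
      have h1 : n ≤ v i := hi
      change _ = x i ^ (a i * p ^ v i)
      rw [← pow_mul, mul_assoc, ← pow_add]
      congr 3
      omega
  | zero => exact ⟨0, zero_pow (pow_ne_zero _ (Fact.out : p.Prime).ne_zero)⟩
  | add z z' _ _ h h' =>
    obtain ⟨y, rfl⟩ := h
    obtain ⟨y', rfl⟩ := h'
    exact ⟨y + y', add_pow_char_pow y y' p n⟩
  | smul c z _ h =>
    obtain ⟨y, rfl⟩ := h
    obtain ⟨b, rfl⟩ := exists_rootk p c n
    exact ⟨b • y, smul_pow _ _ _⟩

lemma root_pow [Fact p.Prime] [CharP k p] [PerfectField k] {n : ℕ} {m : K}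
    (h : m ∈ SS p k x a v n) : root p n m ^ p ^ n = m := by
  have h1 := root_exists h
  rw [root, dif_pos h1]
  exact h1.choose_spec

variable (p k x a v)

open Classical in
/-- the torus coordinates of level `l`, with their exponents -/
noncomputable def JJ : ℕ → Finset (K × ℕ)
  | 0 => (Finset.univ.filter fun i => v i = 0).image fun i => (x i, a i)
  | l + 1 => ((Finset.univ.filter fun i => v i = l + 1).image fun i => (x i, a i)) ∪
      (((JJ l).powerset ×ˢ JJ l).filter fun q : Finset (K × ℕ) × (K × ℕ) =>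
        relm (SS p k x a v (l + 1)) (el p l) q.1 q.2 ∈ SS p k x a v (l + 1) ∧
        relm (SS p k x a v (l + 1)) (el p l) q.1 q.2 ≠ 0).image
      fun q => (root p (l + 1) (relm (SS p k x a v (l + 1)) (el p l) q.1 q.2), 1)

lemma JJ_x (i : Fin N) : (x i, a i) ∈ JJ p k x a v (v i) := by
  classical
  rcases hv : v i with _ | l
  · rw [JJ]
    exact Finset.mem_image.2 ⟨i, Finset.mem_filter.2 ⟨Finset.mem_univ _, hv⟩, rfl⟩
  · rw [JJ]
    exact Finset.mem_union_left _
      (Finset.mem_image.2 ⟨i, Finset.mem_filter.2 ⟨Finset.mem_univ _, hv⟩, rfl⟩)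

variable {p k x a v}

lemma root_mem_JJ {l : ℕ} {B : Finset (K × ℕ)} (hB : B ⊆ JJ p k x a v l) {j : K × ℕ}
    (hj : j ∈ JJ p k x a v l)
    (h : relm (SS p k x a v (l + 1)) (el p l) B j ∈ SS p k x a v (l + 1))
    (h0 : relm (SS p k x a v (l + 1)) (el p l) B j ≠ 0) :
    (root p (l + 1) (relm (SS p k x a v (l + 1)) (el p l) B j), 1) ∈ JJ p k x a v (l + 1) := by
  classical
  rw [JJ]
  refine Finset.mem_union_right _ (Finset.mem_image.2 ⟨(B, j), Finset.mem_filter.2 ⟨?_, h, h0⟩,
    rfl⟩)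
  exact Finset.mem_product.2 ⟨Finset.mem_powerset.2 hB, hj⟩

lemma JJ_good [Fact p.Prime] [CharP k p] [PerfectField k] (hx : ∀ i, x i ≠ 0)
    (ha : ∀ i, ¬ p ∣ a i) (l : ℕ) {q : K × ℕ} (hq : q ∈ JJ p k x a v l) :
    q.1 ≠ 0 ∧ ¬ p ∣ q.2 ∧ el p l q ∈ SS p k x a v l := by
  classical
  have h1 : ∀ l' i, v i = l' → (x i, a i).1 ≠ 0 ∧ ¬ p ∣ (x i, a i).2 ∧
      el p l' (x i, a i) ∈ SS p k x a v l' := by
    rintro l' i rfl
    exact ⟨hx i, ha i, mem_SS p x a v le_rfl⟩
  rcases l with _ | l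
  · rw [JJ] at hq
    obtain ⟨i, hi, rfl⟩ := Finset.mem_image.1 hq
    exact h1 0 i (Finset.mem_filter.1 hi).2
  · rw [JJ] at hq
    rcases Finset.mem_union.1 hq with hq | hq
    · obtain ⟨i, hi, rfl⟩ := Finset.mem_image.1 hq
      exact h1 (l + 1) i (Finset.mem_filter.1 hi).2
    · obtain ⟨⟨B, j⟩, hi, rfl⟩ := Finset.mem_image.1 hq
      obtain ⟨-, h2, h3⟩ := Finset.mem_filter.1 hi
      have h4 := root_pow h2
      refine ⟨?_, ?_, ?_⟩
      · intro h5
        apply h3
        rw [← h4]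
        change root p (l + 1) _ = 0 at h5
        rw [h5, zero_pow (pow_ne_zero _ (Fact.out : p.Prime).ne_zero)]
      · exact (Fact.out : p.Prime).one_lt.ne' ∘ Nat.dvd_one.1
      · rw [el, one_mul, h4]
        exact h2

lemma JJ_span [Fact p.Prime] [CharP k p] [PerfectField k] (hx : ∀ i, x i ≠ 0)
    (ha : ∀ i, ¬ p ∣ a i) (l : ℕ) :
    span k (el p l '' (JJ p k x a v l : Set (K × ℕ))) ⊔ SS p k x a v (l + 1) =
      SS p k x a v l := by
  apply le_antisymm
  · refine sup_le (span_le.2 ?_) (SS_anti p x a v (Nat.le_succ l))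
    rintro _ ⟨q, hq, rfl⟩
    exact (JJ_good hx ha l hq).2.2
  · refine span_le.2 ?_
    rintro z (rfl | ⟨i, hi, rfl⟩)
    · exact mem_sup_right (one_mem_SS p x a v _)
    · have hi' : l ≤ v i := hi
      rcases hi'.eq_or_lt with h | h
      · refine mem_sup_left (subset_span ⟨(x i, a i), ?_, ?_⟩)
        · rw [h]
          exact JJ_x p k x a v i
        · rw [h]
          rfl
      · exact mem_sup_right (mem_SS p x a v h)

/-- the top space -/
lemma SS_top {r : ℕ} (hr : ∀ i, v i ≤ r) : SS p k x a v (r + 1) = span k {1} := by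
  rw [SS]
  congr 1
  have h1 : {i | r + 1 ≤ v i} = (∅ : Set (Fin N)) := by
    ext i
    simp only [Set.mem_ofPred_eq, Set.mem_empty_iff_false, iff_false]
    have := hr i
    omega
  rw [h1, Set.image_empty]
  simp

end

end Pool.Agent.X326.RL
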