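import Mathlib

/-!
# Bases of a subspace modulo another subspace
-/

set_option autoImplicit false

open Submodule

namespace Pool.Agent.X326.RL

section

variable {k V ι : Type*} [Field k] [AddCommGroup V] [Module k V] (S S' : Submodule k V) (e : ι → V)

/-- The elements `e i`, `i ∈ B`, form a basis of `S` modulo `S'`. -/
def IsB (B : Finset ι) : Prop :=
  span k (e '' (B : Set ι)) ⊔ S' = S ∧ B.card + Module.finrank k S' = Module.finrank k S

lemma finrank_map_mkQ (h : S' ≤ S) [FiniteDimensional k S] :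
    Module.finrank k (S.map S'.mkQ) + Module.finrank k S' = Module.finrank k S := by
  have h1 := LinearMap.finrank_range_add_finrank_ker (S'.mkQ.domRestrict S)
  have h2 : LinearMap.range (S'.mkQ.domRestrict S) = S.map S'.mkQ := by
    rw [LinearMap.range_domRestrict]
  have h3 : LinearMap.ker (S'.mkQ.domRestrict S) = S'.comap S.subtype := by
    rw [LinearMap.domRestrict, LinearMap.ker_comp, ker_mkQ]
  rw [h2, h3, LinearEquiv.finrank_eq (comapSubtypeEquivOfLe h)] at h1
  exact h1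

lemma map_mkQ_eq (B : Set ι) : (span k (e '' B) ⊔ S').map S'.mkQ = span k (S'.mkQ '' (e '' B)) := by
  have h1 : S'.map S'.mkQ = ⊥ := by
    rw [eq_bot_iff, map_le_iff_le_comap]
    intro z hz
    rw [mem_comap, mem_bot, mkQ_apply, Quotient.mk_eq_zero]
    exact hz
  rw [Submodule.map_sup, h1, sup_bot_eq, map_span]

lemma exists_isB (h : S' ≤ S) [FiniteDimensional k S] (J : Finset ι)
    (hJ : span k (e '' (J : Set ι)) ⊔ S' = S) : ∃ B ⊆ J, IsB S S' e B := by
  classical
  obtain ⟨b, hb, hb1, hb2⟩ := exists_linearIndependent k (S'.mkQ '' (e '' (J : Set ι)))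
  have hc : ∀ z : b, ∃ i ∈ J, S'.mkQ (e i) = z := by
    rintro ⟨z, hz⟩
    obtain ⟨_, ⟨i, hi, rfl⟩, rfl⟩ := hb hz
    exact ⟨i, hi, rfl⟩
  choose f hf1 hf2 using hc
  have hbf : b.Finite := ((J.finite_toSet.image e).image S'.mkQ).subset hb
  have : Fintype b := hbf.fintype
  have hfi : Function.Injective f := by
    intro z z' h
    apply Subtype.ext
    rw [← hf2 z, ← hf2 z', h]
  refine ⟨Finset.univ.image f, ?_, ?_, ?_⟩
  · intro i hi
    obtain ⟨z, -, rfl⟩ := Finset.mem_image.1 hi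
    exact hf1 z
  · have h1 : S'.mkQ '' (e '' ((Finset.univ.image f : Finset ι) : Set ι)) = b := by
      ext z
      constructor
      · rintro ⟨_, ⟨i, hi, rfl⟩, rfl⟩
        obtain ⟨w, -, rfl⟩ := Finset.mem_image.1 (Finset.mem_coe.1 hi)
        rw [hf2]
        exact w.2
      · intro hz
        exact ⟨_, ⟨f ⟨z, hz⟩, Finset.mem_coe.2 (Finset.mem_image.2 ⟨_, Finset.mem_univ _, rfl⟩),
          rfl⟩, hf2 ⟨z, hz⟩⟩
    have h2 : (span k (e '' ((Finset.univ.image f : Finset ι) : Set ι)) ⊔ S').map S'.mkQ =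
        S.map S'.mkQ := by
      rw [map_mkQ_eq, h1, hb1, ← map_mkQ_eq, hJ]
    have h3 := congrArg (Submodule.comap S'.mkQ) h2
    rw [comap_map_mkQ, comap_map_mkQ] at h3
    rw [← sup_eq_right.2 (le_sup_right : S' ≤ span k (e '' _) ⊔ S'), h3, sup_eq_right.2 h]
  · rw [Finset.card_image_of_injective _ hfi, Finset.card_univ, ← finrank_map_mkQ S S' h]
    congr 1
    have h1 : S.map S'.mkQ = span k b := by rw [hb1, ← map_mkQ_eq, hJ]
    rw [h1]
    have h2 := finrank_span_eq_card hb2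
    rw [Subtype.range_val] at h2
    exact h2.symm

variable {S S' e}

lemma IsB.exchange (hS : S' ≤ S) {B : Finset ι} [DecidableEq ι] (hB : IsB S S' e B) {j i₀ : ι}
    (hj : j ∉ B) (hi₀ : i₀ ∈ B) (hjS : e j ∈ S) (c : ι → k) (hc : c i₀ ≠ 0)
    (hm : e j - ∑ i ∈ B, c i • e i ∈ S') : IsB S S' e (insert j (B.erase i₀)) := by
  have hBS : ∀ i ∈ B, e i ∈ S := fun i hi => by
    rw [← hB.1]
    exact mem_sup_left (subset_span ⟨i, hi, rfl⟩)
  have hj' : j ∉ B.erase i₀ := fun h => hj (Finset.mem_of_mem_erase h)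
  refine ⟨le_antisymm ?_ ?_, ?_⟩
  · refine sup_le (span_le.2 ?_) hS
    rintro _ ⟨i, hi, rfl⟩
    rcases Finset.mem_insert.1 (Finset.mem_coe.1 hi) with rfl | hi
    · exact hjS
    · exact hBS i (Finset.mem_of_mem_erase hi)
  · conv_lhs => rw [← hB.1]
    refine sup_le (span_le.2 ?_) le_sup_right
    have hmem : ∀ i ∈ insert j (B.erase i₀), e i ∈
        span k (e '' ((insert j (B.erase i₀) : Finset ι) : Set ι)) ⊔ S' :=
      fun i hi => mem_sup_left (subset_span ⟨i, hi, rfl⟩)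
    rintro _ ⟨i, hi, rfl⟩
    by_cases h : i = i₀
    · subst h
      have h1 : e i = (c i)⁻¹ • (e j - ∑ i' ∈ B.erase i, c i' • e i' -
          (e j - ∑ i' ∈ B, c i' • e i')) := by
        rw [← Finset.add_sum_erase B _ hi]
        have h2 : e j - ∑ i' ∈ B.erase i, c i' • e i' -
          (e j - (c i • e i + ∑ i' ∈ B.erase i, c i' • e i')) = c i • e i := by abel
        rw [h2, smul_smul, inv_mul_cancel₀ hc, one_smul]
      rw [SetLike.mem_coe, h1]
      refine smul_mem _ _ (sub_mem (sub_mem ?_ (sum_mem fun i' hi' => smul_mem _ _ ?_)) ?_)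
      · exact hmem j (Finset.mem_insert_self _ _)
      · exact hmem i' (Finset.mem_insert_of_mem hi')
      · exact mem_sup_right hm
    · exact hmem i (Finset.mem_insert_of_mem (Finset.mem_erase.2 ⟨h, hi⟩))
  · rw [Finset.card_insert_of_notMem hj', Finset.card_erase_of_mem hi₀, ← hB.2]
    have := Finset.card_pos.2 ⟨i₀, hi₀⟩
    omega

/-- A basis of maximal weight. -/
lemma exists_max (S S' : Submodule k V) (e : ι → V) (h : S' ≤ S) [FiniteDimensional k S]
    (J : Finset ι)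
    (hJ : span k (e '' (J : Set ι)) ⊔ S' = S) (w : ι → ℤ) : ∃ B ⊆ J, IsB S S' e B ∧
    ∀ j ∈ J, j ∉ B → ∀ c : ι → k, e j - ∑ i ∈ B, c i • e i ∈ S' →
      ∀ i ∈ B, c i ≠ 0 → w j ≤ w i := by
  classical
  obtain ⟨B₀, hB₀, hB₀'⟩ := exists_isB S S' e h J hJ
  obtain ⟨B, hB, hmax⟩ := Finset.exists_max_image (J.powerset.filter fun B => IsB S S' e B)
    (fun B => ∑ i ∈ B, w i) ⟨B₀, Finset.mem_filter.2 ⟨Finset.mem_powerset.2 hB₀, hB₀'⟩⟩
  obtain ⟨hBJ, hB1⟩ := Finset.mem_filter.1 hB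
  rw [Finset.mem_powerset] at hBJ
  refine ⟨B, hBJ, hB1, fun j hj hjB c hm i hi hci => ?_⟩
  have hjS : e j ∈ S := by
    rw [← hJ]
    exact mem_sup_left (subset_span ⟨j, hj, rfl⟩)
  have h1 := hB1.exchange h hjB hi hjS c hci hm
  have h2 := hmax (insert j (B.erase i)) (Finset.mem_filter.2 ⟨Finset.mem_powerset.2
    (Finset.insert_subset hj ((Finset.erase_subset _ _).trans hBJ)), h1⟩)
  rw [Finset.sum_insert (fun h => hjB (Finset.mem_of_mem_erase h)),
    ← Finset.add_sum_erase B w hi] at h2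
  linarith

open Classical in
/-- the coefficients of a relation -/
noncomputable def relc (S' : Submodule k V) (e : ι → V) (B : Finset ι) (j : ι) : ι → k :=
  if h : ∃ c : ι → k, e j - ∑ i ∈ B, c i • e i ∈ S' then h.choose else 0

/-- the error term of a relation -/
noncomputable def relm (S' : Submodule k V) (e : ι → V) (B : Finset ι) (j : ι) : V :=
  e j - ∑ i ∈ B, relc S' e B j i • e i

lemma relm_mem {B : Finset ι} {j : ι} (h : e j ∈ span k (e '' (B : Set ι)) ⊔ S') :
    relm S' e B j ∈ S' := by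
  classical
  have h1 : ∃ c : ι → k, e j - ∑ i ∈ B, c i • e i ∈ S' := by
    obtain ⟨y, hy, z, hz, hyz⟩ := mem_sup.1 h
    obtain ⟨c, hc⟩ := (mem_span_image_finset_iff_exists_fun' k).1 hy
    refine ⟨c, ?_⟩
    rw [hc, ← hyz]
    have h3 : y + z - y = z := by abel
    rw [h3]
    exact hz
  rw [relm, relc, dif_pos h1]
  exact h1.choose_spec

end

end Pool.Agent.X326.RL
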