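import Pool.Agent.X326.RL.Sys

/-!
# The system is schön
-/

set_option autoImplicit false
set_option linter.unusedSectionVars false

universe u

open Submodule Pool.Agent.TH214.SD

namespace Pool.Agent.X326.RL

section

variable (p : ℕ) (k : Type u) {K : Type u} [Field k] [Field K] [Algebra k K] {N : ℕ}
  (x : Fin N → K) (a v : Fin N → ℕ) (r : ℕ)

/-- the indices of the equations -/
abbrev QQ : Type u := (l : Fin (r + 1)) ×
  {q : Finset (K × ℕ) × (K × ℕ) // q ∈ (JJ p k x a v l).powerset ×ˢ JJ p k x a v l}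

/-- the number of the equations -/
noncomputable abbrev nQ : ℕ := Fintype.card (QQ p k x a v r)

/-- numbering of the equations -/
noncomputable def eQ : QQ p k x a v r ≃ Fin (nQ p k x a v r) := Fintype.equivFin _

lemma telescope (f g : ℕ → ℕ) (R : ℕ) (h : ∀ l < R, g l + f (l + 1) = f l) :
    ∑ l : Fin R, g l + f R = f 0 := by
  induction R with
  | zero => simp
  | succ R ih =>
    rw [Fin.sum_univ_castSucc]
    simp only [Fin.val_castSucc, Fin.val_last]
    rw [add_assoc, h R (Nat.lt_succ_self R)]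
    exact ih fun l hl => h l (Nat.lt_succ_of_lt hl)

lemma finrank_SS_top (hr : ∀ i, v i ≤ r) :
    Module.finrank k (SS p k x a v (r + 1)) = 1 := by
  rw [SS_top hr]
  exact finrank_span_singleton one_ne_zero

lemma card_II : Fintype.card (II p k x a v r) = ∑ l : Fin (r + 1), (JJ p k x a v l).card := by
  rw [Fintype.card_sigma]
  exact Finset.sum_congr rfl fun l _ => Fintype.card_coe _

variable {p k x a v}

/-- the numbers of the elements of the bases -/
lemma sum_card (hr : ∀ i, v i ≤ r) (B : ℕ → Finset (K × ℕ))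
    (hB : ∀ l, IsB (SS p k x a v l) (SS p k x a v (l + 1)) (el p l) (B l)) :
    ∑ l : Fin (r + 1), (B l).card + 1 = Module.finrank k (SS p k x a v 0) := by
  have h1 := telescope (fun l => Module.finrank k (SS p k x a v l)) (fun l => (B l).card) (r + 1)
    (fun l _ => (hB l).2)
  rw [finrank_SS_top p k x a v r hr] at h1
  exact h1

open Classical in
/-- the weight of a torus coordinate -/
noncomputable def wt (p : ℕ) (k : Type u) {K : Type u} [Field k] [Field K] [Algebra k K] {N : ℕ}
    (x : Fin N → K) (a v : Fin N → ℕ) (r : ℕ)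
    (w : Fin 0 ⊕ Fin (nI p k x a v r) → ℤ) (l : Fin (r + 1)) (i : K × ℕ) : ℤ :=
  if hi : i ∈ JJ p k x a v l then w (Sum.inr (eI p k x a v r ⟨l, ⟨i, hi⟩⟩)) * i.2 else 0

lemma sum_exF (w : Fin 0 ⊕ Fin (nI p k x a v r) → ℤ) (l : ℕ) (m : K) (t : Option (K × ℕ)) :
    ∑ j, w j * exF p k x a v r l m t j =
      ∑ I : II p k x a v r, w (Sum.inr (eI p k x a v r I)) * exI p k x a v r l m t I := by
  rw [Fintype.sum_sum_type]
  have h2 : ∑ i : Fin 0, w (Sum.inl i) * exF p k x a v r l m t (Sum.inl i) = 0 :=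
    Finset.sum_eq_zero fun i _ => i.elim0
  rw [h2, zero_add, ← Equiv.sum_comp (eI p k x a v r)]
  exact Finset.sum_congr rfl fun I _ => by rw [exF_inr]

lemma sum_some (w : Fin 0 ⊕ Fin (nI p k x a v r) → ℤ) (l : Fin (r + 1)) (m : K) {i : K × ℕ}
    (hi : i ∈ JJ p k x a v l) :
    ∑ j, w j * exF p k x a v r l m (some i) j = wt p k x a v r w l i := by
  classical
  rw [sum_exF, Finset.sum_eq_single (⟨l, ⟨i, hi⟩⟩ : II p k x a v r), wt, dif_pos hi]
  · simp only [exI]
    rw [if_pos ⟨trivial, trivial⟩]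
  · rintro ⟨l', ⟨i', hi'⟩⟩ - hne
    simp only [exI]
    rw [if_neg, mul_zero]
    rintro ⟨h1, h2⟩
    have h3 : l' = l := Fin.ext h1
    subst h3
    subst h2
    exact hne rfl
  · intro h
    exact absurd (Finset.mem_univ _) h

section good

variable [Fact p.Prime] [CharP k p] [PerfectField k] (hx : ∀ i, x i ≠ 0) (ha : ∀ i, ¬ p ∣ a i)
  (hr : ∀ i, v i ≤ r)

/-- the family of all equations -/
noncomputable def GF (hx : ∀ i, x i ≠ 0) (ha : ∀ i, ¬ p ∣ a i) (i : Fin (nQ p k x a v r)) :
    (Fin 0 ⊕ Fin (nI p k x a v r) → ℤ) →₀ k :=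
  GG (v := v) r hx ha ((eQ p k x a v r).symm i).1 ((eQ p k x a v r).symm i).2.1.1
    ((eQ p k x a v r).symm i).2.1.2

include hr in
theorem schon {c : ℕ} (hc : c + Module.finrank k (SS p k x a v 0) = nI p k x a v r + 1) :
    SchonEquations (GF (k := k) (v := v) r hx ha) c := by
  classical
  intro w z hz h0
  have hchar : CharP (AlgebraicClosure k) p := charP_of_injective_algebraMap
    (algebraMap k (AlgebraicClosure k)).injective p
  have hmon : ∀ e : Fin 0 ⊕ Fin (nI p k x a v r) → ℤ, ∏ j, z j ^ e j ≠ 0 :=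
    fun e => Finset.prod_ne_zero_iff.2 fun j _ => zpow_ne_zero _ (hz j)
  -- the bases of maximal weight
  have hB : ∀ l : ℕ, ∃ B ⊆ JJ p k x a v l,
      IsB (SS p k x a v l) (SS p k x a v (l + 1)) (el p l) B ∧
      ∀ hl : l < r + 1, ∀ j ∈ JJ p k x a v l, j ∉ B → ∀ c : K × ℕ → k,
        el p l j - ∑ i ∈ B, c i • el p l i ∈ SS p k x a v (l + 1) → ∀ i ∈ B, c i ≠ 0 →
        wt p k x a v r w ⟨l, hl⟩ j ≤ wt p k x a v r w ⟨l, hl⟩ i := by
    intro l
    by_cases hl : l < r + 1
    · obtain ⟨B, h1, h2, h3⟩ := exists_max (SS p k x a v l) (SS p k x a v (l + 1)) (el p l)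
        (SS_anti p x a v (Nat.le_succ l)) (JJ p k x a v l) (JJ_span hx ha l)
        (wt p k x a v r w ⟨l, hl⟩)
      exact ⟨B, h1, h2, fun _ => h3⟩
    · obtain ⟨B, h1, h2⟩ := exists_isB (SS p k x a v l) (SS p k x a v (l + 1)) (el p l)
        (SS_anti p x a v (Nat.le_succ l)) (JJ p k x a v l) (JJ_span hx ha l)
      exact ⟨B, h1, h2, fun h => absurd h hl⟩
  choose B hB1 hB2 hB3 using hB
  -- the chosen equations
  have hcond : ∀ (l : Fin (r + 1)) (j : K × ℕ), j ∈ JJ p k x a v l \ B l →
      Cond p k x a v l (B l) j := by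
    intro l j hj
    obtain ⟨h1, h2⟩ := Finset.mem_sdiff.1 hj
    exact ⟨hB1 l, h1, h2, hB2 l⟩
  -- the equation vanishes
  have hval : ∀ (l : Fin (r + 1)) (j : K × ℕ), j ∈ JJ p k x a v l \ B l →
      initialValue (GG (k := k) r hx ha l (B l) j) w z = 0 := by
    intro l j hj
    have h1 := h0 (eQ p k x a v r ⟨l, ⟨(B l, j), Finset.mem_product.2
      ⟨Finset.mem_powerset.2 (hB1 l), (Finset.mem_sdiff.1 hj).1⟩⟩⟩)
    rw [GF, Equiv.symm_apply_apply] at h1
    exact h1
  -- the distinguished term is minimal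
  have hmin : ∀ (l : Fin (r + 1)) (j : K × ℕ) (hj : j ∈ JJ p k x a v l \ B l),
      (⟨some j, (mem_TT_some p k x a v).2 (Or.inl rfl)⟩ :
        {t // t ∈ TT p k x a v l (B l) j}) ∈ mins (exE r hx ha l (hcond l j hj)) w := by
    intro l j hj
    by_contra hcon
    have hc := hcond l j hj
    have hv := hval l j hj
    rw [GG, dif_pos hc, initialValue_lau _ _ (co_ne r hx ha hr l hc)] at hv
    have hne : Nonempty {t // t ∈ TT p k x a v l (B l) j} :=
      ⟨⟨some j, (mem_TT_some p k x a v).2 (Or.inl rfl)⟩⟩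
    obtain ⟨t0, ht0⟩ := mins_nonempty (exE r hx ha l hc) w
    have hle : ∀ t ∈ mins (exE r hx ha l hc) w, t.1 = none := by
      rintro ⟨t, ht⟩ htm
      rcases t with _ | i
      · rfl
      · exfalso
        apply hcon
        refine Finset.mem_filter.2 ⟨Finset.mem_univ _, fun t' => ?_⟩
        refine le_trans ?_ ((Finset.mem_filter.1 htm).2 t')
        change ∑ j', w j' * exF p k x a v r l (rm p k x a v l (B l) j) (some j) j' ≤
          ∑ j', w j' * exF p k x a v r l (rm p k x a v l (B l) j) (some i) j'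
        rw [sum_some r w l _ hc.mem, sum_some r w l _ (hc.mem_JJ ht)]
        rcases (mem_TT_some p k x a v).1 ht with rfl | ⟨hi, hi'⟩
        · exact le_rfl
        · exact hB3 l l.2 j hc.mem hc.not _ (hc.rm_mem hx ha) i hi hi'
    have hs : mins (exE r hx ha l hc) w = {t0} := by
      apply Finset.eq_singleton_iff_unique_mem.2
      exact ⟨ht0, fun t ht => Subtype.ext ((hle t ht).trans (hle t0 ht0).symm)⟩
    rw [hs, Finset.sum_singleton] at hv
    rcases mul_eq_zero.1 hv with h1 | h1
    · exact co_ne r hx ha hr l hc t0 ((map_eq_zero _).1 h1)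
    · exact hmon _ h1
  -- the matrix of the gradients
  let OO : Type u := (l : Fin (r + 1)) × {q : K × ℕ // q ∈ JJ p k x a v l \ B l}
  let fam : OO → Fin (nI p k x a v r) → AlgebraicClosure k := fun o =>
    initialGradient (GG (k := k) r hx ha o.1 (B o.1) o.2.1) w z
  let col : OO → Fin (nI p k x a v r) := fun o =>
    eI p k x a v r ⟨o.1, ⟨o.2.1, (Finset.mem_sdiff.1 o.2.2).1⟩⟩
  have hoff : ∀ o o' : OO, o' ≠ o → fam o' (col o) = 0 := by
    rintro ⟨l, j, hj⟩ ⟨l', j', hj'⟩ hne
    have hc := hcond l' j' hj'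
    change initialGradient (GG (k := k) r hx ha l' (B l') j') w z
      (eI p k x a v r ⟨l, ⟨j, _⟩⟩) = 0
    rw [GG, dif_pos hc, initialGradient_lau _ _ (co_ne r hx ha hr l' hc)]
    refine Finset.sum_eq_zero ?_
    rintro ⟨t, ht⟩ -
    have h1 : ((exF p k x a v r l' (rm p k x a v l' (B l') j') t (Sum.inr
        (eI p k x a v r ⟨l, ⟨j, (Finset.mem_sdiff.1 hj).1⟩⟩)) : ℤ) : AlgebraicClosure k) = 0 := by
      rw [exF_inr]
      rcases t with _ | i
      · simp only [exI]
        split_ifs
        · rw [Int.cast_natCast]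
          exact CharP.cast_eq_zero _ p
        · exact Int.cast_zero
      · simp only [exI]
        rw [if_neg, Int.cast_zero]
        rintro ⟨h2, h3⟩
        have h4 : l = l' := Fin.ext h2
        subst h4
        subst h3
        rcases (mem_TT_some p k x a v).1 ht with h5 | h5
        · subst h5
          exact hne rfl
        · exact (Finset.mem_sdiff.1 hj).2 h5.1
    change _ * ((exF p k x a v r l' (rm p k x a v l' (B l') j') t (Sum.inr
        (eI p k x a v r ⟨l, ⟨j, _⟩⟩)) : ℤ) : AlgebraicClosure k) * _ = 0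
    rw [h1, mul_zero, zero_mul]
  have hdiag : ∀ o : OO, fam o (col o) ≠ 0 := by
    rintro ⟨l, j, hj⟩
    have hc := hcond l j hj
    change initialGradient (GG (k := k) r hx ha l (B l) j) w z
      (eI p k x a v r ⟨l, ⟨j, _⟩⟩) ≠ 0
    rw [GG, dif_pos hc, initialGradient_lau _ _ (co_ne r hx ha hr l hc)]
    rw [Finset.sum_eq_single (⟨some j, (mem_TT_some p k x a v).2 (Or.inl rfl)⟩ :
        {t // t ∈ TT p k x a v l (B l) j})]
    · refine mul_ne_zero (mul_ne_zero ?_ ?_) (hmon _)
      · exact (map_ne_zero _).2 (co_ne r hx ha hr l hc _)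
      · change ((exF p k x a v r l (rm p k x a v l (B l) j) (some j) (Sum.inr
          (eI p k x a v r ⟨l, ⟨j, (Finset.mem_sdiff.1 hj).1⟩⟩)) : ℤ) : AlgebraicClosure k) ≠ 0
        rw [exF_inr]
        simp only [exI]
        rw [if_pos ⟨trivial, trivial⟩, Int.cast_natCast]
        intro h1
        exact (JJ_good hx ha l hc.mem).2.1 ((CharP.cast_eq_zero_iff _ p _).1 h1)
    · rintro ⟨t, ht⟩ - hne'
      have h1 : ((exF p k x a v r l (rm p k x a v l (B l) j) t (Sum.inr
          (eI p k x a v r ⟨l, ⟨j, (Finset.mem_sdiff.1 hj).1⟩⟩)) : ℤ) :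
            AlgebraicClosure k) = 0 := by
        rw [exF_inr]
        rcases t with _ | i
        · simp only [exI]
          split_ifs
          · rw [Int.cast_natCast]
            exact CharP.cast_eq_zero _ p
          · exact Int.cast_zero
        · simp only [exI]
          rw [if_neg, Int.cast_zero]
          rintro ⟨h2, h3⟩
          apply hne'
          apply Subtype.ext
          change some i = some j
          rw [← h3]
      change _ * ((exF p k x a v r l (rm p k x a v l (B l) j) t (Sum.inr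
          (eI p k x a v r ⟨l, ⟨j, _⟩⟩)) : ℤ) : AlgebraicClosure k) * _ = 0
      rw [h1, mul_zero, zero_mul]
    · intro h1
      exact absurd (hmin l j hj) h1
  have hli : LinearIndependent (AlgebraicClosure k) fam := by
    rw [Fintype.linearIndependent_iff]
    intro g hg o
    have h1 := congrFun hg (col o)
    rw [Finset.sum_apply, Finset.sum_eq_single o] at h1
    · rw [Pi.smul_apply, smul_eq_mul] at h1
      rcases mul_eq_zero.1 h1 with h2 | h2
      · exact h2
      · exact absurd h2 (hdiag o)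
    · intro o' _ ho'
      rw [Pi.smul_apply, hoff o o' ho', smul_zero]
    · intro h2
      exact absurd (Finset.mem_univ _) h2
  -- the number of the equations
  have hcard : Fintype.card OO = c := by
    have h1 : Fintype.card OO = ∑ l : Fin (r + 1), (JJ p k x a v l \ B l).card := by
      rw [Fintype.card_sigma]
      exact Finset.sum_congr rfl fun l _ => Fintype.card_coe _
    have h2 : ∑ l : Fin (r + 1), (JJ p k x a v l \ B l).card + ∑ l : Fin (r + 1), (B l).card =
        ∑ l : Fin (r + 1), (JJ p k x a v l).card := by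
      rw [← Finset.sum_add_distrib]
      exact Finset.sum_congr rfl fun l _ => Finset.card_sdiff_add_card_eq_card (hB1 l)
    have h3 := sum_card r hr B hB2
    have h4 := card_II p k x a v r
    have h5 : nI p k x a v r = Fintype.card (II p k x a v r) := rfl
    rw [h5, h4] at hc
    omega
  rw [← hcard, ← finrank_span_eq_card hli]
  apply Submodule.finrank_mono
  apply span_mono
  rintro _ ⟨⟨l, j, hj⟩, rfl⟩
  refine ⟨eQ p k x a v r ⟨l, ⟨(B l, j), Finset.mem_product.2
      ⟨Finset.mem_powerset.2 (hB1 l), (Finset.mem_sdiff.1 hj).1⟩⟩⟩, ?_⟩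
  change initialGradient (GF (k := k) (v := v) r hx ha (eQ p k x a v r _)) w z = _
  rw [GF, Equiv.symm_apply_apply]

end good

end

end Pool.Agent.X326.RL
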