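import Pool.Agent.X326.RL.Lev
import Pool.Agent.X326.RL.Emb

/-!
# The system of equations
-/

set_option autoImplicit false

universe u

open Submodule Pool.Agent.TH214.SD

namespace Pool.Agent.X326.RL

section

variable (p : ℕ) (k : Type u) {K : Type u} [Field k] [Field K] [Algebra k K] {N : ℕ}
  (x : Fin N → K) (a v : Fin N → ℕ) (r : ℕ)

/-- the torus coordinates -/
abbrev II : Type u := (l : Fin (r + 1)) × {q : K × ℕ // q ∈ JJ p k x a v l}

/-- the number of the torus coordinates -/
noncomputable abbrev nI : ℕ := Fintype.card (II p k x a v r)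

/-- numbering of the torus coordinates -/
noncomputable def eI : II p k x a v r ≃ Fin (nI p k x a v r) := Fintype.equivFin _

/-- the coefficients of the relation -/
noncomputable def rc (l : ℕ) (B : Finset (K × ℕ)) (j : K × ℕ) (i : K × ℕ) : k :=
  relc (SS p k x a v (l + 1)) (el p l) B j i

/-- the error term of the relation -/
noncomputable def rm (l : ℕ) (B : Finset (K × ℕ)) (j : K × ℕ) : K :=
  relm (SS p k x a v (l + 1)) (el p l) B j

open Classical in
/-- the terms of the equation -/
noncomputable def TT (l : ℕ) (B : Finset (K × ℕ)) (j : K × ℕ) : Finset (Option (K × ℕ)) :=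
  (insert j (B.filter fun i => rc p k x a v l B j i ≠ 0)).image some ∪
    if rm p k x a v l B j ≠ 0 then {none} else ∅

lemma mem_TT_some {l : ℕ} {B : Finset (K × ℕ)} {j i : K × ℕ} : some i ∈ TT p k x a v l B j ↔
    i = j ∨ i ∈ B ∧ rc p k x a v l B j i ≠ 0 := by
  classical
  rw [TT, Finset.mem_union]
  constructor
  · rintro (h | h)
    · obtain ⟨i', hi', h1⟩ := Finset.mem_image.1 h
      rw [Option.some_inj] at h1
      subst h1
      rcases Finset.mem_insert.1 hi' with h | h
      · exact Or.inl h
      · exact Or.inr (Finset.mem_filter.1 h)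
    · split_ifs at h with h1
      · simp at h
      · simp at h
  · intro h
    refine Or.inl (Finset.mem_image.2 ⟨i, ?_, rfl⟩)
    rcases h with h | h
    · exact Finset.mem_insert.2 (Or.inl h)
    · exact Finset.mem_insert.2 (Or.inr (Finset.mem_filter.2 h))

lemma mem_TT_none {l : ℕ} {B : Finset (K × ℕ)} {j : K × ℕ} : none ∈ TT p k x a v l B j ↔
    rm p k x a v l B j ≠ 0 := by
  classical
  rw [TT, Finset.mem_union]
  constructor
  · rintro (h | h)
    · obtain ⟨i', -, h1⟩ := Finset.mem_image.1 h
      exact absurd h1 (Option.some_ne_none _)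
    · split_ifs at h with h1
      · exact h1
      · simp at h
  · intro h
    refine Or.inr ?_
    rw [if_pos h]
    exact Finset.mem_singleton_self _

open Classical in
/-- the exponents -/
noncomputable def exI (l : ℕ) (m : K) : Option (K × ℕ) → II p k x a v r → ℤ
  | some i, I => if (I.1 : ℕ) = l ∧ I.2.1 = i then i.2 else 0
  | none, I => if (I.1 : ℕ) = l + 1 ∧ I.2.1 = (root p (l + 1) m, 1) then p else 0

/-- the exponents -/
noncomputable def exF (l : ℕ) (m : K) (t : Option (K × ℕ)) : Fin 0 ⊕ Fin (nI p k x a v r) → ℤ :=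
  Sum.elim Fin.elim0 fun j => exI p k x a v r l m t ((eI p k x a v r).symm j)

lemma exF_inr (l : ℕ) (m : K) (t : Option (K × ℕ)) (I : II p k x a v r) :
    exF p k x a v r l m t (Sum.inr (eI p k x a v r I)) = exI p k x a v r l m t I := by
  simp [exF]

/-- the index of an equation -/
structure Cond (l : ℕ) (B : Finset (K × ℕ)) (j : K × ℕ) : Prop where
  sub : B ⊆ JJ p k x a v l
  mem : j ∈ JJ p k x a v l
  not : j ∉ B
  isB : IsB (SS p k x a v l) (SS p k x a v (l + 1)) (el p l) B

variable {p k x a v}

lemma Cond.mem_JJ {l : ℕ} {B : Finset (K × ℕ)} {j : K × ℕ} (h : Cond p k x a v l B j)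
    {i : K × ℕ} (hi : some i ∈ TT p k x a v l B j) : i ∈ JJ p k x a v l := by
  rcases (mem_TT_some p k x a v).1 hi with rfl | hi
  · exact h.mem
  · exact h.sub hi.1

section good

variable [Fact p.Prime] [CharP k p] [PerfectField k] (hx : ∀ i, x i ≠ 0) (ha : ∀ i, ¬ p ∣ a i)

include hx ha in
lemma Cond.rm_mem {l : ℕ} {B : Finset (K × ℕ)} {j : K × ℕ} (h : Cond p k x a v l B j) :
    rm p k x a v l B j ∈ SS p k x a v (l + 1) := by
  apply relm_mem
  rw [h.isB.1]
  exact (JJ_good hx ha l h.mem).2.2

include hx ha in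
lemma exF_inj (l : Fin (r + 1)) {B : Finset (K × ℕ)} {j : K × ℕ} (h : Cond p k x a v l B j) :
    Function.Injective fun t : {t // t ∈ TT p k x a v l B j} =>
      exF p k x a v r l (rm p k x a v l B j) t.1 := by
  classical
  rintro ⟨t, ht⟩ ⟨t', ht'⟩ hh
  have hJ : ∀ I, exI p k x a v r l (rm p k x a v l B j) t I =
      exI p k x a v r l (rm p k x a v l B j) t' I := by
    intro I
    rw [← exF_inr, ← exF_inr]
    exact congrFun hh _
  have hne : ∀ i ∈ JJ p k x a v l, (i.2 : ℤ) ≠ 0 := by
    intro i hi h0
    apply (JJ_good hx ha l hi).2.1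
    rw [Nat.cast_eq_zero.1 h0]
    exact dvd_zero p
  apply Subtype.ext
  change t = t'
  rcases t with _ | i <;> rcases t' with _ | i'
  · rfl
  · exfalso
    have hi := h.mem_JJ ht'
    have h1 := hJ ⟨l, ⟨i', hi⟩⟩
    simp only [exI] at h1
    rw [if_neg (fun h => by omega), if_pos ⟨trivial, trivial⟩] at h1
    exact hne i' hi h1.symm
  · exfalso
    have hi := h.mem_JJ ht
    have h1 := hJ ⟨l, ⟨i, hi⟩⟩
    simp only [exI] at h1
    rw [if_pos ⟨trivial, trivial⟩, if_neg (fun h => by omega)] at h1
    exact hne i hi h1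
  · have hi := h.mem_JJ ht
    have h1 := hJ ⟨l, ⟨i, hi⟩⟩
    simp only [exI] at h1
    rw [if_pos ⟨trivial, trivial⟩] at h1
    by_cases h2 : i = i'
    · rw [h2]
    · rw [if_neg (fun h => h2 h.2)] at h1
      exact absurd h1 (hne i hi)

end good

variable (p k)

open Classical in
/-- the root in the base field -/
noncomputable def rt (l : ℕ) (c : k) : k := if h : ∃ b : k, b ^ p ^ l = c then h.choose else 0

variable {k}

open Classical in
/-- the constant -/
noncomputable def cst (k : Type u) {K : Type u} [Field k] [Field K] [Algebra k K] (m : K) : k :=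
  if h : ∃ c : k, algebraMap k K c = m then h.choose else 0

variable (k x a v)

open Classical in
/-- the coefficients -/
noncomputable def co (l : ℕ) (B : Finset (K × ℕ)) (j : K × ℕ) : Option (K × ℕ) → k
  | some i => if i = j then -1 else rt p k l (rc p k x a v l B j i)
  | none => if l < r then 1 else rt p k l (cst k (rm p k x a v l B j))

variable {p k x a v}

lemma rt_pow [Fact p.Prime] [CharP k p] [PerfectField k] (l : ℕ) (c : k) :
    rt p k l c ^ p ^ l = c := by
  have h := exists_rootk p c l
  rw [rt, dif_pos h]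
  exact h.choose_spec

lemma cst_spec {m : K} (h : m ∈ span k {(1 : K)}) : algebraMap k K (cst k m) = m := by
  have h1 : ∃ c : k, algebraMap k K c = m := by
    obtain ⟨c, hc⟩ := mem_span_singleton.1 h
    exact ⟨c, by rw [← hc, Algebra.algebraMap_eq_smul_one]⟩
  rw [cst, dif_pos h1]
  exact h1.choose_spec

section good

variable [Fact p.Prime] [CharP k p] [PerfectField k] (hx : ∀ i, x i ≠ 0) (ha : ∀ i, ¬ p ∣ a i)
  (hr : ∀ i, v i ≤ r)

include hx ha hr in
lemma Cond.rm_top {l : ℕ} (hl : l = r) {B : Finset (K × ℕ)} {j : K × ℕ}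
    (h : Cond p k x a v l B j) : algebraMap k K (cst k (rm p k x a v l B j)) =
      rm p k x a v l B j := by
  apply cst_spec
  have h1 := h.rm_mem hx ha
  rw [hl, SS_top hr] at h1
  rw [hl]
  exact h1

include hx ha hr in
lemma co_ne (l : Fin (r + 1)) {B : Finset (K × ℕ)} {j : K × ℕ} (h : Cond p k x a v l B j)
    (t : {t // t ∈ TT p k x a v l B j}) : co p k x a v r l B j t.1 ≠ 0 := by
  classical
  obtain ⟨t, ht⟩ := t
  have hp := (Fact.out : p.Prime).ne_zero
  rcases t with _ | i
  · change (if (l : ℕ) < r then (1 : k) else rt p k l (cst k (rm p k x a v l B j))) ≠ 0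
    split_ifs with h1
    · exact one_ne_zero
    · intro h2
      have h3 := rt_pow (p := p) (l : ℕ) (cst k (rm p k x a v l B j))
      rw [h2, zero_pow (pow_ne_zero _ hp)] at h3
      have h4 := h.rm_top r hx ha hr (by have := l.2; omega)
      rw [← h3, map_zero] at h4
      exact (mem_TT_none p k x a v).1 ht h4.symm
  · change (if i = j then (-1 : k) else rt p k l (rc p k x a v l B j i)) ≠ 0
    split_ifs with h1
    · exact neg_ne_zero.2 one_ne_zero
    · intro h2
      have h3 := rt_pow (p := p) (l : ℕ) (rc p k x a v l B j i)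
      rw [h2, zero_pow (pow_ne_zero _ hp)] at h3
      exact (((mem_TT_some p k x a v).1 ht).resolve_left h1).2 h3.symm

/-- the exponents, as an embedding -/
noncomputable def exE (hx : ∀ i, x i ≠ 0) (ha : ∀ i, ¬ p ∣ a i) (l : Fin (r + 1))
    {B : Finset (K × ℕ)} {j : K × ℕ} (h : Cond p k x a v l B j) :
    {t // t ∈ TT p k x a v l B j} ↪ (Fin 0 ⊕ Fin (nI p k x a v r) → ℤ) :=
  ⟨fun t => exF p k x a v r l (rm p k x a v l B j) t.1, exF_inj r hx ha l h⟩

open Classical in
/-- the equations -/
noncomputable def GG (hx : ∀ i, x i ≠ 0) (ha : ∀ i, ¬ p ∣ a i) (l : Fin (r + 1))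
    (B : Finset (K × ℕ)) (j : K × ℕ) : (Fin 0 ⊕ Fin (nI p k x a v r) → ℤ) →₀ k :=
  if h : Cond p k x a v l B j then lau (exE r hx ha l h) fun t => co p k x a v r l B j t.1 else 0

/-- the values of the torus coordinates -/
noncomputable def yI (I : II p k x a v r) : K := I.2.1.1

lemma mon_some (l : Fin (r + 1)) (m : K) {i : K × ℕ} (hi : i ∈ JJ p k x a v l) :
    ∏ I : II p k x a v r, yI r I ^ exI p k x a v r l m (some i) I = i.1 ^ i.2 := by
  classical
  rw [Finset.prod_eq_single (⟨l, ⟨i, hi⟩⟩ : II p k x a v r)]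
  · simp only [exI]
    rw [if_pos ⟨trivial, trivial⟩, zpow_natCast]
    rfl
  · rintro ⟨l', ⟨i', hi'⟩⟩ - hne
    simp only [exI]
    rw [if_neg, zpow_zero]
    rintro ⟨h1, h2⟩
    have h3 : l' = l := Fin.ext h1
    subst h3
    subst h2
    exact hne rfl
  · intro h
    exact absurd (Finset.mem_univ _) h

lemma mon_none (l : Fin (r + 1)) (hl : (l : ℕ) < r) (m : K)
    (hm : (root p (l + 1) m, 1) ∈ JJ p k x a v (l + 1)) :
    ∏ I : II p k x a v r, yI r I ^ exI p k x a v r l m none I = root p (l + 1) m ^ p := by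
  classical
  have hl1 : (l : ℕ) + 1 < r + 1 := by omega
  rw [Finset.prod_eq_single (⟨⟨l + 1, hl1⟩, ⟨(root p (l + 1) m, 1), hm⟩⟩ : II p k x a v r)]
  · simp only [exI]
    rw [if_pos ⟨trivial, trivial⟩, zpow_natCast]
    rfl
  · rintro ⟨l', ⟨i', hi'⟩⟩ - hne
    simp only [exI]
    rw [if_neg, zpow_zero]
    rintro ⟨h1, h2⟩
    have h3 : l' = ⟨l + 1, hl1⟩ := Fin.ext h1
    subst h3
    subst h2
    exact hne rfl
  · intro h
    exact absurd (Finset.mem_univ _) h

lemma mon_none_top (l : Fin (r + 1)) (hl : ¬ (l : ℕ) < r) (m : K) :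
    ∏ I : II p k x a v r, yI r I ^ exI p k x a v r l m none I = 1 := by
  classical
  refine Finset.prod_eq_one fun I _ => ?_
  simp only [exI]
  rw [if_neg, zpow_zero]
  rintro ⟨h1, -⟩
  have := I.1.2
  omega

include hr in
/-- the equations hold -/
theorem value_GG (l : Fin (r + 1)) (B : Finset (K × ℕ)) (j : K × ℕ) :
    value (GG r hx ha l B j) Fin.elim0 (fun i => yI r ((eI p k x a v r).symm i)) = 0 := by
  classical
  have hchar : CharP K p := charP_of_injective_algebraMap (algebraMap k K).injective p
  by_cases h : Cond p k x a v l B j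
  swap
  · rw [GG, dif_neg h]
    simp [value]
  rw [GG, dif_pos h, value_lau _ _ (co_ne r hx ha hr l h)]
  have h1 : ∀ t : {t // t ∈ TT p k x a v l B j}, co p k x a v r l B j t.1 •
      ∏ i, Sum.elim Fin.elim0 (fun i => yI r ((eI p k x a v r).symm i)) i ^ exE r hx ha l h t i =
      (fun t' => co p k x a v r l B j t' •
        ∏ I : II p k x a v r, yI r I ^ exI p k x a v r l (rm p k x a v l B j) t' I) t.1 := by
    intro t
    congr 1
    rw [Fintype.prod_sum_type]
    have h2 : ∏ i : Fin 0, Sum.elim Fin.elim0 (fun i => yI r ((eI p k x a v r).symm i))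
        (Sum.inl i) ^ exE r hx ha l h t (Sum.inl i) = 1 := Finset.prod_eq_one fun i _ => i.elim0
    rw [h2, one_mul]
    exact Equiv.prod_comp (eI p k x a v r).symm
      (fun I => yI r I ^ exI p k x a v r l (rm p k x a v l B j) t.1 I)
  rw [Finset.sum_congr rfl fun t _ => h1 t, Finset.sum_coe_sort (TT p k x a v l B j)
    (fun t' => co p k x a v r l B j t' •
        ∏ I : II p k x a v r, yI r I ^ exI p k x a v r l (rm p k x a v l B j) t' I)]
  -- apply the power of Frobenius
  have hfr : Function.Injective (iterateFrobenius K p l) := RingHom.injective _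
  apply hfr
  rw [map_zero, map_sum, TT, Finset.sum_union]
  swap
  · rw [Finset.disjoint_left]
    intro t ht ht'
    obtain ⟨i, -, rfl⟩ := Finset.mem_image.1 ht
    split_ifs at ht'
    · simp at ht'
    · simp at ht'
  rw [Finset.sum_image (fun i _ i' _ h => Option.some_injective _ h), Finset.sum_insert]
  swap
  · intro h2
    exact h.not (Finset.mem_filter.1 h2).1
  have hA : iterateFrobenius K p l (co p k x a v r l B j (some j) •
      ∏ I : II p k x a v r, yI r I ^ exI p k x a v r l (rm p k x a v l B j) (some j) I) =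
      - el p l j := by
    rw [mon_some r l _ h.mem]
    have h2 : co p k x a v r l B j (some j) = -1 := if_pos rfl
    rw [h2, neg_smul, one_smul, map_neg, iterateFrobenius_def, el, pow_mul]
  have hB : ∑ i ∈ B.filter (fun i => rc p k x a v l B j i ≠ 0),
      iterateFrobenius K p l (co p k x a v r l B j (some i) •
      ∏ I : II p k x a v r, yI r I ^ exI p k x a v r l (rm p k x a v l B j) (some i) I) =
      ∑ i ∈ B, rc p k x a v l B j i • el p l i := by
    rw [Finset.sum_filter]
    refine Finset.sum_congr rfl fun i hi => ?_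
    by_cases h2 : rc p k x a v l B j i ≠ 0
    · rw [if_pos h2, mon_some r l _ (h.sub hi)]
      have h3 : i ≠ j := fun h4 => h.not (h4 ▸ hi)
      have h4 : co p k x a v r l B j (some i) = rt p k l (rc p k x a v l B j i) := if_neg h3
      rw [h4, iterateFrobenius_def, smul_pow, rt_pow, el, pow_mul]
    · rw [if_neg h2]
      rw [not_not] at h2
      rw [h2, zero_smul]
  have hC : ∑ t ∈ (if rm p k x a v l B j ≠ 0 then ({none} : Finset (Option (K × ℕ))) else ∅),
      iterateFrobenius K p l (co p k x a v r l B j t •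
      ∏ I : II p k x a v r, yI r I ^ exI p k x a v r l (rm p k x a v l B j) t I) =
      rm p k x a v l B j := by
    by_cases h2 : rm p k x a v l B j ≠ 0
    · rw [if_pos h2, Finset.sum_singleton]
      by_cases h3 : (l : ℕ) < r
      · have h4 : co p k x a v r l B j none = 1 := if_pos h3
        rw [h4, one_smul, mon_none r l h3 (rm p k x a v l B j) (root_mem_JJ h.sub h.mem (h.rm_mem hx ha) h2),
          iterateFrobenius_def, ← pow_mul, ← pow_succ']
        exact root_pow (h.rm_mem hx ha)
      · have h4 : co p k x a v r l B j none = rt p k l (cst k (rm p k x a v l B j)) := if_neg h3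
        rw [h4, mon_none_top r l h3, iterateFrobenius_def, smul_pow, rt_pow, one_pow,
          ← Algebra.algebraMap_eq_smul_one]
        exact h.rm_top r hx ha hr (by have := l.2; omega)
    · rw [if_neg h2, Finset.sum_empty]
      rw [not_not] at h2
      exact h2.symm
  rw [hA, hB, hC]
  have h5 : rm p k x a v l B j = el p l j - ∑ i ∈ B, rc p k x a v l B j i • el p l i := rfl
  rw [h5]
  abel

end good

end

end Pool.Agent.X326.RL
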